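import Pool.Agent.Helper36.QC.Nilp2

set_option autoImplicit false

/-!
# Final form of the theorem on nilpotent finite subgroups
-/

universe u

namespace Pool.Agent.Helper36.QC

open Subgroup Pointwise

/-- A group `C` is tame if its centre has finite index, or if it is a `p`-group for some prime `p`
and every divisible abelian subgroup `A` of `C` has rank at most `p - 2`, in the sense that fewer
than `p ^ (p - 1)` elements `x` of `A` satisfy `x ^ p = 1`. -/
def Tame (C : Type u) [Group C] : Prop :=
  (center C).FiniteIndex ∨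
    ∃ p : ℕ, p.Prime ∧ IsPGroup p C ∧ ∀ A : Subgroup C, (∀ x ∈ A, ∀ y ∈ A, x * y = y * x) →
      (∀ x ∈ A, ∀ n : ℕ, 0 < n → ∃ y ∈ A, y ^ n = x) →
      {x : C | x ∈ A ∧ x ^ p = 1}.encard < (p ^ (p - 1) : ℕ)

variable {G : Type u} [Group G]

/-- conjugation on the divisible part is trivial if the rank is small -/
lemma centreByFinite_of_tame (hG : IsQuasiChernikov G) {C : Subgroup G} (hC : C ≠ ⊤)
    (ht : Tame C) : CentreByFinite C := by
  rcases ht with h | ⟨p, hp, hpC, hr⟩
  · exact h
  have : Fact p.Prime := ⟨hp⟩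
  refine centreByFinite_of_rank' hG hpC hC ?_
  intro A hAC hAc hAd
  have h4 := hr (A.subgroupOf C) ?_ ?_
  · have himg : (Subtype.val : C → G) '' {x : C | x ∈ A.subgroupOf C ∧ x ^ p = 1}
        = {x : G | x ∈ A ∧ x ^ p = 1} := by
      ext y
      constructor
      · rintro ⟨x, ⟨hx, hxp⟩, rfl⟩
        refine ⟨hx, ?_⟩
        have := congrArg Subtype.val hxp
        simpa using this
      · rintro ⟨hy, hyp⟩
        exact ⟨⟨y, hAC hy⟩, ⟨hy, Subtype.ext (by simpa using hyp)⟩, rfl⟩
    have h4' : {x : G | x ∈ A ∧ x ^ p = 1}.encard < (p ^ (p - 1) : ℕ) := by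
      rw [← himg, Subtype.val_injective.encard_image]
      exact h4
    have h5 : {x : G | x ∈ A ∧ x ^ p = 1}.Finite := by
      rw [← Set.encard_lt_top_iff]
      exact h4'.trans (ENat.natCast_lt_top _)
    refine ⟨h5, ?_⟩
    rw [← h5.cast_ncard_eq] at h4'
    exact_mod_cast h4'
  · intro x hx y hy
    exact Subtype.ext (hAc x hx y hy)
  · intro x hx n hn
    obtain ⟨y, hy, hyx⟩ := hAd x hx n hn
    exact ⟨⟨y, hAC hy⟩, hy, Subtype.ext (by simpa using hyx)⟩

/-- **Final form.** -/
theorem good_infinite_of_tame [IsSimpleGroup G] (hG : IsQuasiChernikov G)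
    {a b : G} (ha1 : a ≠ 1) (hb1 : b ≠ 1)
    (hz : ∀ g : G, Finite (closure ({a, g⁻¹ * b * g} : Set G)) →
      center (closure ({a, g⁻¹ * b * g} : Set G)) ≠ ⊥)
    (ha : Tame (centralizer ({a} : Set G))) (hb : Tame (centralizer ({b} : Set G))) :
    (good a b).Infinite := by
  have := hG.infinite
  have hz' : ∀ g : G, Finite (gen a b g) →
      ∃ z ∈ gen a b g, z ≠ 1 ∧ ∀ y ∈ gen a b g, y * z = z * y := by
    intro g hg
    have h2 : center (gen a b g) ≠ ⊥ := hz g hg
    obtain ⟨z, hz1⟩ := ne_bot_iff_exists_ne_one.1 h2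
    refine ⟨((z : gen a b g) : G), (z : gen a b g).2, ?_, ?_⟩
    · intro h
      exact hz1 (Subtype.ext (Subtype.ext h))
    · intro y hy
      have := mem_center_iff.1 z.2 ⟨y, hy⟩
      exact congrArg Subtype.val this
  have hca := centreByFinite_of_tame hG (centralizer_ne_top ha1) ha
  have hcb := centreByFinite_of_tame hG (centralizer_ne_top hb1) hb
  by_cases h1 : Finite (centralizer ({a} : Set G))
  · by_cases h2 : Finite (centralizer ({b} : Set G))
    · exact good_infinite_of_finite hG hz' h1 h2
    · refine good_infinite_of_centre' hG ha1 hb1 ?_ (not_finite_iff_infinite.1 h2) hcb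
      -- transport
      intro g hg
      have hmap : (gen a b g⁻¹) = (gen b a g).map (MulAut.conj g).toMonoidHom := by
        apply le_antisymm
        · refine gen_le ?_ ?_
          · exact ⟨_, right_mem_gen b a g, by simp; group⟩
          · exact ⟨_, left_mem_gen b a g, by simp⟩
        · rw [map_le_iff_le_comap]
          refine gen_le ?_ ?_
          · change g * b * g⁻¹ ∈ gen a b g⁻¹
            have := right_mem_gen a b g⁻¹
            rwa [inv_inv] at this
          · change g * (g⁻¹ * a * g) * g⁻¹ ∈ gen a b g⁻¹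
            have e : g * (g⁻¹ * a * g) * g⁻¹ = a := by group
            rw [e]
            exact left_mem_gen _ _ _
      have hfin : Finite (gen a b g⁻¹) := by
        rw [hmap]
        exact Set.Finite.to_subtype (Set.Finite.image _ (Set.toFinite (gen b a g : Set G)))
      obtain ⟨z, hzg, hz1, hzc⟩ := hz' g⁻¹ hfin
      rw [hmap] at hzg
      obtain ⟨t, ht, rfl⟩ := hzg
      refine ⟨t, ht, ?_, ?_⟩
      · rintro rfl
        exact hz1 (by simp)
      · intro y hy
        have h3 := hzc ((MulAut.conj g).toMonoidHom y) (by rw [hmap]; exact ⟨y, hy, rfl⟩)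
        rw [← map_mul, ← map_mul] at h3
        exact (MulAut.conj g).injective h3
  · exact good_infinite_of_centre hG ha1 hb1 hz' (not_finite_iff_infinite.1 h1) hca

end Pool.Agent.Helper36.QC
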