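import Mathlib

set_option autoImplicit false

/-!
# Chernikov groups and quasi-Chernikov groups
-/

universe u

namespace Pool.Agent.Helper36.QC

/-- `H` is a Chernikov group: it has a normal subgroup `N` of finite index which is abelian,
divisible and satisfies the minimal condition on subgroups (equivalently, `N` is a direct product
of finitely many quasicyclic groups). -/
def IsChernikov (H : Type u) [Group H] : Prop :=
  ∃ N : Subgroup H, N.Normal ∧ N.FiniteIndex ∧
    (∀ x ∈ N, ∀ y ∈ N, x * y = y * x) ∧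
    (∀ x ∈ N, ∀ n : ℕ, 0 < n → ∃ y ∈ N, y ^ n = x) ∧
    (∀ f : ℕ → Subgroup H, Antitone f → (∀ k, f k ≤ N) → ∃ m, ∀ k, m ≤ k → f k = f m)

/-- `G` is a quasi-Chernikov group: it is not a Chernikov group but all its proper subgroups
are. -/
def IsQuasiChernikov (G : Type u) [Group G] : Prop :=
  ¬ IsChernikov G ∧ ∀ H : Subgroup G, H ≠ ⊤ → IsChernikov H

/-- `K` is malnormal in `G`: `K ∩ g⁻¹ K g = 1` for all `g ∉ K`. -/
def Malnormal {G : Type u} [Group G] (K : Subgroup G) : Prop :=
  ∀ g : G, g ∉ K → ∀ x ∈ K, g⁻¹ * x * g ∈ K → x = 1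

/-- The subgroup `K` is abelian. -/
def Comm {G : Type u} [Group G] (K : Subgroup G) : Prop := ∀ x ∈ K, ∀ y ∈ K, x * y = y * x

end Pool.Agent.Helper36.QC
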