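import Pool.Agent.Helper36.QC.MainM

set_option autoImplicit false

/-!
# Simple quasi-Chernikov groups with abelian malnormal subgroups
-/

universe u

namespace Pool.Agent.Helper36.QC

open Subgroup

/-- a finitely generated divisible commutative group is trivial -/
lemma trivial_of_fg_divisible (A : Type u) [CommGroup A] [Group.FG A]
    (hdiv : ∀ x : A, ∀ n : ℕ, 0 < n → ∃ y, y ^ n = x) (x : A) : x = 1 := by
  have hfg : AddGroup.FG (Additive A) := inferInstance
  have hfin : Module.Finite ℤ (Additive A) := Module.Finite.iff_addGroup_fg.2 hfg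
  have htop : (⊤ : Submodule ℤ (Additive A)).FG := hfin.1
  have hle : (⊤ : Submodule ℤ (Additive A)) ≤ (Ideal.span {(2 : ℤ)}) • ⊤ := by
    intro y _
    obtain ⟨z, hz⟩ := hdiv y.toMul 2 (by norm_num)
    have h1 : y = (2 : ℤ) • (Additive.ofMul z) := by
      have h2 : Additive.ofMul (z ^ 2) = y := by rw [hz]; rfl
      rw [← h2, ofMul_pow]
      norm_cast
    rw [h1]
    exact Submodule.smul_mem_smul (Ideal.mem_span_singleton_self 2) trivial
  obtain ⟨r, hr1, hr2⟩ := Submodule.exists_sub_one_mem_and_smul_eq_zero_of_fg_of_le_smul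
    (Ideal.span {(2 : ℤ)}) ⊤ htop hle
  have hr0 : r ≠ 0 := by
    rintro rfl
    rw [Ideal.mem_span_singleton] at hr1
    omega
  have hn : 0 < r.natAbs := Int.natAbs_pos.2 hr0
  obtain ⟨y, hy⟩ := hdiv x r.natAbs hn
  have h1 : r • (Additive.ofMul y) = 0 := hr2 _ trivial
  have h2 : y ^ r = 1 := by
    have : Additive.ofMul (y ^ r) = 0 := by rw [ofMul_zpow]; exact h1
    exact this
  rw [← hy]
  rcases Int.natAbs_eq r with h | h
  · rw [← zpow_natCast, ← h]; exact h2
  · have h3 : (r.natAbs : ℤ) = -r := by omega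
    rw [← zpow_natCast, h3, zpow_neg, h2, inv_one]

/-- a finitely generated Chernikov group is finite -/
lemma IsChernikov.finite {H : Type u} [Group H] (h : IsChernikov H) [Group.FG H] : Finite H := by
  obtain ⟨N, hN, hfi, hc, hdiv, -⟩ := h
  have hfg : Group.FG N := Subgroup.fg_of_index_ne_zero N
  let iC : CommGroup N :=
    { (inferInstance : Group N) with
      mul_comm := fun x y => Subtype.ext (hc x x.2 y y.2) }
  have hbot : ∀ x : N, x = 1 := by
    refine trivial_of_fg_divisible N ?_
    intro x n hn
    obtain ⟨y, hy, hyx⟩ := hdiv x x.2 n hn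
    exact ⟨⟨y, hy⟩, Subtype.ext hyx⟩
  have hN1 : N = ⊥ := by
    rw [eq_bot_iff]
    intro x hx
    rw [mem_bot]
    exact congrArg Subtype.val (hbot ⟨x, hx⟩)
  rw [hN1] at hfi
  have h1 := finiteIndex_iff.1 hfi
  rw [index_bot] at h1
  exact Nat.finite_of_card_ne_zero h1

lemma isChernikov_of_finite (H : Type u) [Group H] [Finite H] : IsChernikov H := by
  refine ⟨⊥, inferInstance, inferInstance, ?_, ?_, ?_⟩
  · intro x hx y hy
    rw [mem_bot] at hx hy
    rw [hx, hy]
  · intro x hx n hn
    exact ⟨1, one_mem _, by rw [mem_bot] at hx; rw [hx, one_pow]⟩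
  · intro f _ hf
    exact ⟨0, fun k _ => by rw [le_bot_iff.1 (hf k), le_bot_iff.1 (hf 0)]⟩

variable {G : Type u} [Group G]

lemma IsQuasiChernikov.infinite (hG : IsQuasiChernikov G) : Infinite G := by
  by_contra h
  rw [not_infinite_iff_finite] at h
  exact hG.1 (isChernikov_of_finite G)

lemma gen_fg (a b g : G) : Group.FG (gen a b g) :=
  (Group.fg_iff_subgroup_fg _).2 ((Subgroup.fg_iff _).2 ⟨{a, g⁻¹ * b * g}, rfl, Set.toFinite _⟩)

lemma IsQuasiChernikov.gen_eq_top (hG : IsQuasiChernikov G) {a b g : G}
    (h : ¬ Finite (gen a b g)) : gen a b g = ⊤ := by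
  by_contra h'
  have := gen_fg a b g
  exact h (hG.2 _ h').finite

/-- the set of the `g` with `⟨a, g⁻¹ b g⟩ = G` -/
def good (a b : G) : Set G := {g | closure ({a, g⁻¹ * b * g} : Set G) = ⊤}

/-- symmetry -/
lemma good_symm {a b : G} (h : (good b a).Infinite) : (good a b).Infinite := by
  have h1 : (fun g : G => g⁻¹) '' good b a ⊆ good a b := by
    rintro _ ⟨g, hg, rfl⟩
    have hg' : gen b a g = ⊤ := hg
    have : gen a b g⁻¹ = ⊤ := by
      rw [eq_top_iff]
      intro x _
      have h2 : gen b a g ≤ (gen a b g⁻¹).map (MulAut.conj g⁻¹).toMonoidHom := by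
        refine gen_le ?_ ?_
        · refine ⟨_, right_mem_gen a b g⁻¹, ?_⟩
          simp; group
        · refine ⟨_, left_mem_gen a b g⁻¹, ?_⟩
          simp
      have h3 : g⁻¹ * x * g ∈ gen b a g := by rw [hg']; trivial
      obtain ⟨y, hy, hyx⟩ := h2 h3
      have h4 : y = x := by
        have : g⁻¹ * y * g = g⁻¹ * x * g := by simpa using hyx
        exact mul_left_cancel (mul_right_cancel this)
      rw [← h4]; exact hy
    exact this
  exact (h.image inv_injective.injOn).mono h1

/-- Main corollary for quasi-Chernikov groups. -/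
theorem good_infinite [IsSimpleGroup G] (hG : IsQuasiChernikov G) {K : Subgroup G} (hKt : K ≠ ⊤)
    (hK : Malnormal K) (hc : Comm K) {a b : G} (hK' : a ∈ K ∨ b ∈ K) (ha1 : a ≠ 1) (hb1 : b ≠ 1)
    (hab : a ^ 2 ≠ 1 ∨ b ^ 2 ≠ 1) : (good a b).Infinite := by
  have := hG.infinite
  rcases hK' with ha | hb
  · exact (infinite_infinite hKt hK hc ha ha1 hb1 hab).mono fun g hg => hG.gen_eq_top hg
  · exact good_symm ((infinite_infinite hKt hK hc hb hb1 ha1 hab.symm).mono
      fun g hg => hG.gen_eq_top hg)

/-- an infinite simple group has trivial centre -/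
lemma center_eq_bot [IsSimpleGroup G] [Infinite G] : center G = ⊥ := by
  rcases IsSimpleGroup.eq_bot_or_eq_top_of_normal (center G) inferInstance with h | h
  · exact h
  · exfalso
    let iC : CommGroup G :=
      { (inferInstance : Group G) with
        mul_comm := fun x y => by
          have : y ∈ center G := by rw [h]; trivial
          exact (mem_center_iff.1 this x) }
    have : Finite G := by
      have hs : IsSimpleGroup G := inferInstance
      have := @IsSimpleGroup.prime_card G iC hs
      exact Nat.finite_of_card_ne_zero this.ne_zero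
    exact not_finite G

lemma centralizer_ne_top [IsSimpleGroup G] [Infinite G] {x : G} (hx : x ≠ 1) :
    centralizer ({x} : Set G) ≠ ⊤ := by
  intro h
  apply hx
  have : x ∈ center G := by
    rw [mem_center_iff]
    intro g
    have hg : g ∈ centralizer ({x} : Set G) := by rw [h]; trivial
    rw [mem_centralizer_singleton_iff] at hg
    exact hg
  rw [center_eq_bot, mem_bot] at this
  exact this

/-- an abelian maximal subgroup of an infinite simple group is malnormal -/
lemma malnormal_of_isCoatom [IsSimpleGroup G] [Infinite G] {K : Subgroup G} (hK : IsCoatom K)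
    (hc : Comm K) (hK1 : K ≠ ⊥) : Malnormal K := by
  have hcent : ∀ x ∈ K, x ≠ 1 → centralizer ({x} : Set G) = K := by
    intro x hx hx1
    have hle : K ≤ centralizer ({x} : Set G) := by
      intro y hy
      rw [mem_centralizer_singleton_iff]
      exact hc y hy x hx
    rcases hle.eq_or_lt with h | h
    · exact h.symm
    · exact absurd (hK.2 _ h) (centralizer_ne_top hx1)
  intro g hg x hx hgx
  by_contra hx1
  have hgx1 : g⁻¹ * x * g ≠ 1 := by
    intro h
    apply hx1
    have : x = g * (g⁻¹ * x * g) * g⁻¹ := by group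
    rw [this, h]; group
  have h1 := hcent x hx hx1
  have h2 := hcent _ hgx hgx1
  -- `K` is normalized by `g`
  have h3 : ∀ y, y ∈ K ↔ g * y * g⁻¹ ∈ K := by
    intro y
    conv_lhs => rw [← h2]
    conv_rhs => rw [← h1]
    rw [mem_centralizer_singleton_iff, mem_centralizer_singleton_iff]
    constructor
    · intro h
      have e1 : g * y * g⁻¹ * x = g * (y * (g⁻¹ * x * g)) * g⁻¹ := by group
      have e2 : x * (g * y * g⁻¹) = g * ((g⁻¹ * x * g) * y) * g⁻¹ := by group
      rw [e1, e2, h]
    · intro h
      have e1 : y * (g⁻¹ * x * g) = g⁻¹ * (g * y * g⁻¹ * x) * g := by group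
      have e2 : (g⁻¹ * x * g) * y = g⁻¹ * (x * (g * y * g⁻¹)) * g := by group
      rw [e1, e2, h]
  have h4 : g ∈ normalizer (K : Set G) := by
    rw [mem_normalizer_iff]
    exact h3
  have h5 : K < normalizer (K : Set G) :=
    lt_of_le_of_ne le_normalizer (fun h => hg (by rw [h]; exact h4))
  have h6 := hK.2 _ h5
  have h7 : K.Normal := normalizer_eq_top_iff.1 h6
  rcases IsSimpleGroup.eq_bot_or_eq_top_of_normal K h7 with h | h
  · exact hK1 h
  · exact hK.1 h

/-- if all infinite proper subgroups are abelian then infinite centralizers are malnormal -/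
lemma malnormal_centralizer [IsSimpleGroup G] [Infinite G]
    (hab : ∀ H : Subgroup G, H ≠ ⊤ → Infinite H → Comm H) {a : G} (ha1 : a ≠ 1)
    (hinf : Infinite (centralizer ({a} : Set G))) : Malnormal (centralizer ({a} : Set G)) := by
  set K := centralizer ({a} : Set G) with hK
  have hKt : K ≠ ⊤ := centralizer_ne_top ha1
  have hc : Comm K := hab K hKt hinf
  have haK : a ∈ K := by rw [hK, mem_centralizer_singleton_iff]
  -- every proper subgroup containing `K` is `K`
  have hmax : ∀ H : Subgroup G, H ≠ ⊤ → K ≤ H → H = K := by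
    intro H hH hle
    have hi : Infinite H := by
      exact Infinite.of_injective (inclusion hle) (inclusion_injective hle)
    have hcH := hab H hH hi
    refine le_antisymm ?_ hle
    intro y hy
    rw [hK, mem_centralizer_singleton_iff]
    exact hcH y hy a (hle haK)
  have hco : IsCoatom K := by
    refine ⟨hKt, fun H hH => ?_⟩
    by_contra h
    exact hH.ne (hmax H h hH.le).symm
  refine malnormal_of_isCoatom hco hc ?_
  intro h
  rw [h, mem_bot] at haK
  exact ha1 haK

end Pool.Agent.Helper36.QC
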