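import Pool.Agent.Helper36.QC.Malnormal

set_option autoImplicit false

/-!
# Simple groups with an abelian malnormal subgroup
-/

universe u

namespace Pool.Agent.Helper36.QC

open Subgroup

variable {G : Type u} [Group G]

/-- restriction of a malnormal subgroup -/
lemma Malnormal.subgroupOf {K : Subgroup G} (hK : Malnormal K) (L : Subgroup G) :
    Malnormal (K.subgroupOf L) := by
  intro g hg x hx h
  rw [mem_subgroupOf] at hg hx h
  exact Subtype.ext (hK g hg x hx h)

lemma Comm.subgroupOf {K : Subgroup G} (hK : Comm K) (L : Subgroup G) :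
    Comm (K.subgroupOf L) := by
  intro x hx y hy
  rw [mem_subgroupOf] at hx hy
  exact Subtype.ext (hK x hx y hy)

/-- the conjugate `g⁻¹ K g` -/
def cj (K : Subgroup G) (g : G) : Subgroup G := K.map (MulAut.conj g⁻¹).toMonoidHom

lemma mem_cj {K : Subgroup G} {g x : G} : x ∈ cj K g ↔ g * x * g⁻¹ ∈ K := by
  unfold cj
  rw [Subgroup.mem_map]
  constructor
  · rintro ⟨y, hy, rfl⟩
    have : g * (MulAut.conj g⁻¹).toMonoidHom y * g⁻¹ = y := by
      simp; group
    rw [this]; exact hy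
  · intro h
    exact ⟨_, h, by simp; group⟩

lemma Malnormal.cj {K : Subgroup G} (hK : Malnormal K) (g : G) :
    Malnormal (cj K g) := by
  intro h hh x hx hx'
  rw [mem_cj] at hh hx hx'
  have h1 := hK (g * h * g⁻¹) hh (g * x * g⁻¹) hx (by
    have : (g * h * g⁻¹)⁻¹ * (g * x * g⁻¹) * (g * h * g⁻¹) = g * (h⁻¹ * x * h) * g⁻¹ := by group
    rw [this]; exact hx')
  have h2 : x = g⁻¹ * (g * x * g⁻¹) * g := by group
  rw [h2, h1]; group

lemma Comm.cj {K : Subgroup G} (hK : Comm K) (g : G) : Comm (cj K g) := by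
  intro x hx y hy
  rw [mem_cj] at hx hy
  have h1 := hK _ hx _ hy
  have h2 : x * y = g⁻¹ * ((g * x * g⁻¹) * (g * y * g⁻¹)) * g := by group
  have h3 : y * x = g⁻¹ * ((g * y * g⁻¹) * (g * x * g⁻¹)) * g := by group
  rw [h2, h3, h1]

/-- the subgroup generated by `a` and `g⁻¹ b g` -/
def gen (a b g : G) : Subgroup G := closure {a, g⁻¹ * b * g}

lemma left_mem_gen (a b g : G) : a ∈ gen a b g := subset_closure (by simp)
lemma right_mem_gen (a b g : G) : g⁻¹ * b * g ∈ gen a b g := subset_closure (by simp)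

lemma gen_le {a b g : G} {L : Subgroup G} (h1 : a ∈ L) (h2 : g⁻¹ * b * g ∈ L) :
    gen a b g ≤ L := by
  unfold gen
  rw [closure_le]
  rintro x (rfl | rfl)
  · exact h1
  · exact h2

/-- If `a, b ∈ K` and `⟨a, g⁻¹ b g⟩` is finite then `g⁻¹ b g = f⁻¹ b f` with `f` and `b` in it. -/
theorem key {K : Subgroup G} (hK : Malnormal K) (hc : Comm K) {a b g : G} (ha : a ∈ K)
    (ha1 : a ≠ 1) (hb : b ∈ K) (hb1 : b ≠ 1) (hfin : Finite (gen a b g)) :
    b ∈ gen a b g ∧ ∃ f ∈ gen a b g, g⁻¹ * b * g = f⁻¹ * b * f ∧ g * f⁻¹ ∈ K := by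
  set L := gen a b g with hL
  have hbe : g⁻¹ * b * g ≠ 1 := by
    intro h
    apply hb1
    have : b = g * (g⁻¹ * b * g) * g⁻¹ := by group
    rw [this, h]; group
  obtain ⟨d, hd, f, hf⟩ := conj_of_two_malnormal (L := L) (hK.subgroupOf L) (hc.subgroupOf L)
    ((hK.cj g).subgroupOf L) ((hc.cj g).subgroupOf L)
    (a := ⟨a, left_mem_gen a b g⟩) (e := ⟨g⁻¹ * b * g, right_mem_gen a b g⟩)
    (by rw [mem_subgroupOf]; exact ha) (by intro h; exact ha1 (congrArg Subtype.val h))
    (by rw [mem_subgroupOf, mem_cj]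
        change g * (g⁻¹ * b * g) * g⁻¹ ∈ K
        have : g * (g⁻¹ * b * g) * g⁻¹ = b := by group
        rw [this]; exact hb)
    (by intro h; exact hbe (congrArg Subtype.val h))
  have hf' : g⁻¹ * b * g = (f : G)⁻¹ * d * f := congrArg Subtype.val hf
  have hdK : (d : G) ∈ K := hd
  have h1 : (g * (f : G)⁻¹)⁻¹ * b * (g * (f : G)⁻¹) = d := by
    have : (g * (f : G)⁻¹)⁻¹ * b * (g * (f : G)⁻¹) = f * (g⁻¹ * b * g) * (f : G)⁻¹ := by group
    rw [this, hf']; group
  have h2 : g * (f : G)⁻¹ ∈ K := hK.mem_of_conj hb hb1 (by rw [h1]; exact hdK)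
  have h3 : (d : G) = b := by
    rw [← h1, mul_assoc, hc b hb _ h2, inv_mul_cancel_left]
  refine ⟨?_, f, f.2, ?_, h2⟩
  · rw [← h3]; exact d.2
  · rw [hf', h3]

/-- finiteness passes from the pair `(a, b)` to the pairs `(a, a)` and `(b, b)` -/
theorem finite_self {K : Subgroup G} (hK : Malnormal K) (hc : Comm K) {a b : G} (ha : a ∈ K)
    (ha1 : a ≠ 1) (hb : b ∈ K) (hb1 : b ≠ 1) {g : G} (hfin : Finite (gen a b g)) {u : G}
    (hu : u = a ∨ u = b) : Finite (gen u u g) := by
  obtain ⟨h1, f, hf, h2, h3⟩ := key hK hc ha ha1 hb hb1 hfin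
  have huL : u ∈ gen a b g := by
    rcases hu with rfl | rfl
    · exact left_mem_gen _ _ _
    · exact h1
  have huK : u ∈ K := by
    rcases hu with rfl | rfl
    · exact ha
    · exact hb
  have h4 : g⁻¹ * u * g = f⁻¹ * u * f := by
    have e1 : g⁻¹ * u * g = f⁻¹ * ((g * f⁻¹)⁻¹ * (u * (g * f⁻¹))) * f := by group
    rw [e1, hc u huK _ h3, inv_mul_cancel_left]
  have hle : gen u u g ≤ gen a b g := by
    refine gen_le huL ?_
    rw [h4]
    exact mul_mem (mul_mem (inv_mem hf) huL) hf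
  exact Finite.of_injective (inclusion hle) (inclusion_injective hle)

/-- conjugacy -/
def Cj (x y : G) : Prop := ∃ h : G, y = h⁻¹ * x * h

lemma Cj.refl (x : G) : Cj x x := ⟨1, by group⟩

lemma Cj.conj {x y : G} (h : Cj x y) (g : G) : Cj x (g⁻¹ * y * g) := by
  obtain ⟨k, rfl⟩ := h
  exact ⟨k * g, by group⟩

/-- products of conjugates of powers, for one `g` -/
theorem mul_conj_one {K : Subgroup G} (hK : Malnormal K) (hc : Comm K) {w : G} (hw : w ∈ K)
    (hw1 : w ≠ 1) (i j : ℤ) (hij : w ^ (i + j) ≠ 1) {g : G} (hfg : Finite (gen w w g)) :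
    Cj (w ^ (i + j)) (w ^ i * (g⁻¹ * w ^ j * g)) := by
  obtain ⟨h1, f, hf, h2, h3⟩ := key hK hc hw hw1 hw hw1 hfg
  set L := gen w w g with hL
  obtain ⟨A, _, V, hinj, hsurj, hconj⟩ := exists_retraction (L := L) (hK.subgroupOf L)
    (hc.subgroupOf L)
  have hpow : g⁻¹ * w ^ j * g = (f : G)⁻¹ * w ^ j * f := by
    have e1 : g⁻¹ * w ^ j * g = f⁻¹ * ((g * f⁻¹)⁻¹ * (w ^ j * (g * f⁻¹))) * f := by group
    rw [e1, hc _ (K.zpow_mem hw j) _ h3, inv_mul_cancel_left]
  let wL : L := ⟨w, h1⟩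
  let fL : L := ⟨f, hf⟩
  obtain ⟨k, hk⟩ := hconj (wL ^ (i + j)) (by
      rw [mem_subgroupOf]
      exact K.zpow_mem hw _) (by
      intro h
      exact hij (congrArg Subtype.val h)) (wL ^ i * (fL⁻¹ * wL ^ j * fL)) (by
      rw [map_mul, map_mul, map_mul, map_inv, zpow_add, map_mul]
      congr 1
      rw [mul_comm (V fL)⁻¹, inv_mul_cancel_right])
  refine ⟨k, ?_⟩
  rw [hpow]
  exact congrArg Subtype.val hk

theorem mul_conj {K : Subgroup G} (hK : Malnormal K) (hc : Comm K) {w : G} (hw : w ∈ K)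
    (hw1 : w ≠ 1) (i j : ℤ) (hij : w ^ (i + j) ≠ 1) {s t : G}
    (hfin : Finite (gen w w (t * s⁻¹))) :
    Cj (w ^ (i + j)) ((s⁻¹ * w ^ i * s) * (t⁻¹ * w ^ j * t)) := by
  have h := (mul_conj_one hK hc hw hw1 i j hij hfin).conj s
  have e : s⁻¹ * w ^ i * s * (t⁻¹ * w ^ j * t)
      = s⁻¹ * (w ^ i * ((t * s⁻¹)⁻¹ * w ^ j * (t * s⁻¹))) * s := by group
  rw [e]; exact h

/-- the exceptional set of `s`: the conjugates `v` of `w` with `v * s` not conjugate to `w` -/
def exc (w s : G) : Set G := {v | Cj w v ∧ ¬ Cj w (v * s)}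

lemma exc_mul (w s t : G) (hs : (exc w s).Finite) (ht : (exc w t).Finite) :
    (exc w (s * t)).Finite := by
  have hinj : Function.Injective (fun v : G => v * s) := mul_left_injective s
  refine (hs.union (ht.preimage hinj.injOn)).subset ?_
  rintro v ⟨hv, hv'⟩
  by_cases h : Cj w (v * s)
  · right
    exact ⟨h, by rw [mul_assoc]; exact hv'⟩
  · left
    exact ⟨hv, h⟩

lemma exc_conj (w s g : G) (hs : (exc w s).Finite) : (exc w (g * s * g⁻¹)).Finite := by
  refine (hs.image (fun v => g * v * g⁻¹)).subset ?_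
  rintro v ⟨hv, hv'⟩
  refine ⟨g⁻¹ * v * g, ⟨hv.conj g, ?_⟩, by group⟩
  intro h
  apply hv'
  have h2 := h.conj g⁻¹
  have e : v * (g * s * g⁻¹) = g⁻¹⁻¹ * (g⁻¹ * v * g * s) * g⁻¹ := by group
  rw [e]; exact h2

/-- the normal subgroup of elements that almost preserve the class of `w` -/
def stabCj (w : G) : Subgroup G where
  carrier := {s | (exc w s).Finite ∧ (exc w s⁻¹).Finite}
  one_mem' := by
    have : exc w 1 = ∅ := by
      ext v
      simp [exc]
    refine ⟨?_, ?_⟩
    · rw [this]; exact Set.finite_empty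
    · rw [inv_one, this]; exact Set.finite_empty
  mul_mem' := by
    intro s t hs ht
    refine ⟨exc_mul w s t hs.1 ht.1, ?_⟩
    rw [mul_inv_rev]
    exact exc_mul w _ _ ht.2 hs.2
  inv_mem' := by
    intro s hs
    exact ⟨hs.2, by rw [inv_inv]; exact hs.1⟩

lemma mem_stabCj {w s : G} : s ∈ stabCj w ↔ (exc w s).Finite ∧ (exc w s⁻¹).Finite := Iff.rfl

instance stabCj_normal (w : G) : (stabCj w).Normal := by
  constructor
  intro s hs g
  refine ⟨exc_conj w s g hs.1, ?_⟩
  have e : (g * s * g⁻¹)⁻¹ = g * s⁻¹ * g⁻¹ := by group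
  rw [e]
  exact exc_conj w s⁻¹ g hs.2

lemma Cj.ne_one {x y : G} (hx : x ≠ 1) (h : Cj x y) : y ≠ 1 := by
  rintro rfl
  obtain ⟨k, hk⟩ := h
  apply hx
  have : x = k * (k⁻¹ * x * k) * k⁻¹ := by group
  rw [this, ← hk]; group

lemma stabCj_eq_top [IsSimpleGroup G] {w s : G} (hs : s ≠ 1) (h : s ∈ stabCj w) :
    stabCj w = ⊤ := by
  rcases (IsSimpleGroup.eq_bot_or_eq_top_of_normal _ (stabCj_normal w)) with h' | h'
  · rw [h', mem_bot] at h
    exact absurd h hs
  · exact h'

/-- conjugacy classes of an infinite simple group with a proper malnormal subgroup `≠ 1` are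
infinite -/
lemma infinite_class [IsSimpleGroup G] [Infinite G] {K : Subgroup G} (hKt : K ≠ ⊤)
    (hK : Malnormal K) {a : G} (ha : a ∈ K) (ha1 : a ≠ 1) {b : G} (hb1 : b ≠ 1) :
    {v | Cj b v}.Infinite := by
  intro hfin
  -- the centralizer of `b` has finite index
  set C : Subgroup G := centralizer {b} with hC
  have hCi : C.FiniteIndex := by
    have : Finite (G ⧸ C) := by
      have : Finite {v | Cj b v} := hfin
      let φ : G ⧸ C → {v | Cj b v} := fun q =>
        ⟨q.out * b * q.out⁻¹, ⟨q.out⁻¹, by group⟩⟩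
      refine Finite.of_injective φ ?_
      intro q r h
      have h1 : q.out * b * q.out⁻¹ = r.out * b * r.out⁻¹ := congrArg Subtype.val h
      rw [← q.out_eq, ← r.out_eq]
      change ((q.out : G) : G ⧸ C) = ((r.out : G) : G ⧸ C)
      refine QuotientGroup.eq.2 ?_
      change q.out⁻¹ * r.out ∈ centralizer {b}
      have h2 : b * (q.out⁻¹ * r.out) = q.out⁻¹ * (q.out * b * q.out⁻¹) * r.out := by group
      have h3 : (q.out⁻¹ * r.out) * b = q.out⁻¹ * (r.out * b * r.out⁻¹) * r.out := by group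
      rw [mem_centralizer_singleton_iff, h2, h3, h1]
    exact Subgroup.finiteIndex_of_finite_quotient
  have hN : C.normalCore.FiniteIndex := inferInstance
  rcases IsSimpleGroup.eq_bot_or_eq_top_of_normal _ (normalCore_normal C) with h | h
  · rw [h] at hN
    have h1 := (Subgroup.finiteIndex_iff.1 hN)
    rw [index_bot] at h1
    exact h1 Nat.card_eq_zero_of_infinite
  · -- `b` is central
    have hCt : C = ⊤ := by
      rw [eq_top_iff, ← h]
      exact normalCore_le C
    have hbc : b ∈ center G := by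
      rw [mem_center_iff]
      intro g
      have : g ∈ C := by rw [hCt]; trivial
      rw [hC, mem_centralizer_singleton_iff] at this
      exact this
    have hct : center G = ⊤ := by
      rcases IsSimpleGroup.eq_bot_or_eq_top_of_normal (center G) inferInstance with h' | h'
      · rw [h', mem_bot] at hbc
        exact absurd hbc hb1
      · exact h'
    apply hKt
    rw [eq_top_iff]
    intro g _
    refine hK.mem_of_conj ha ha1 ?_
    have hac : a ∈ center G := by rw [hct]; trivial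
    rw [mul_assoc, ← (mem_center_iff.1 hac g), inv_mul_cancel_left]
    exact ha

/-- **Main theorem**: in an infinite simple group `G` with a proper abelian malnormal subgroup
`K`, if `a ∈ K` and `b ∈ G` are nontrivial and not both of order two, then infinitely many
`⟨a, g⁻¹ b g⟩` are infinite. -/
theorem infinite_infinite [IsSimpleGroup G] [Infinite G] {K : Subgroup G} (hKt : K ≠ ⊤)
    (hK : Malnormal K) (hc : Comm K) {a b : G} (ha : a ∈ K) (ha1 : a ≠ 1) (hb1 : b ≠ 1)
    (hab : a ^ 2 ≠ 1 ∨ b ^ 2 ≠ 1) : {g | ¬ Finite (gen a b g)}.Infinite := by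
  intro hE
  by_cases hbK : ∃ x, x⁻¹ * b * x ∈ K
  · obtain ⟨x, hx⟩ := hbK
    set b' := x⁻¹ * b * x with hb'
    have hb'1 : b' ≠ 1 := by
      intro h
      apply hb1
      have : b = x * b' * x⁻¹ := by rw [hb']; group
      rw [this, h]; group
    have hE' : {g | ¬ Finite (gen a b' g)}.Finite := by
      refine (hE.image (fun g => x⁻¹ * g)).subset ?_
      intro g hg
      refine ⟨x * g, ?_, by group⟩
      have e : gen a b' g = gen a b (x * g) := by
        unfold gen
        congr 2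
        rw [hb']
        have : g⁻¹ * (x⁻¹ * b * x) * g = (x * g)⁻¹ * b * (x * g) := by group
        rw [this]
      rw [Set.mem_ofPred_eq, ← e]; exact hg
    have hb'2 : b ^ 2 ≠ 1 → b' ^ 2 ≠ 1 := by
      intro h h'
      apply h
      have : b ^ 2 = x * b' ^ 2 * x⁻¹ := by rw [hb', pow_two, pow_two]; group
      rw [this, h']; group
    -- choose `w ∈ {a, b'}` with `w² ≠ 1`
    obtain ⟨w, hw, hwK, hw1, hw2⟩ : ∃ w, (w = a ∨ w = b') ∧ w ∈ K ∧ w ≠ 1 ∧ w ^ 2 ≠ 1 := by
      rcases hab with h | h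
      · exact ⟨a, Or.inl rfl, ha, ha1, h⟩
      · exact ⟨b', Or.inr rfl, hx, hb'1, hb'2 h⟩
    set B : Set G := {g | ¬ Finite (gen w w g)} with hB
    have hBf : B.Finite := by
      refine hE'.subset ?_
      intro g hg
      rw [Set.mem_ofPred_eq]
      intro h
      exact hg (finite_self hK hc ha ha1 hx hb'1 h hw)
    have hgood : ∀ g, g ∉ B → Finite (gen w w g) := by
      intro g hg
      by_contra h
      exact hg h
    have T := @mul_conj G _ K hK hc w hwK hw1
    -- for `y z⁻¹ ∉ B`: `z⁻¹ w⁻¹ z * y⁻¹ w y` almost preserves the class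
    have hmem : ∀ y z : G, y * z⁻¹ ∉ B → (exc w ((z⁻¹ * w⁻¹ * z) * (y⁻¹ * w * y))).Finite := by
      intro y z hyz
      have h2 : Cj (w ^ (1 + 1 : ℤ)) (w * ((y * z⁻¹)⁻¹ * w * (y * z⁻¹))) := by
        have := T 1 1 (s := 1) (t := y * z⁻¹) (by
          intro h
          apply hw2
          rw [← zpow_natCast]
          exact_mod_cast h) (by simpa using hgood _ hyz)
        simpa using this
      obtain ⟨y', hy'⟩ := h2
      -- the exceptional conjugates
      set F1 : Set G := (fun g => z⁻¹ * (g * w * g⁻¹) * z) '' B with hF1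
      set F2 : Set G := (fun g => z⁻¹ * (((y'⁻¹ * g) * w⁻¹ * (y'⁻¹ * g)⁻¹) * w ^ 2) * z) '' B
        with hF2
      refine ((hBf.image _).union (hBf.image _) : (F1 ∪ F2).Finite).subset ?_
      rintro v ⟨hv, hv'⟩
      by_contra hcon
      rw [Set.mem_union, not_or] at hcon
      obtain ⟨hn1, hn2⟩ := hcon
      apply hv'
      obtain ⟨x0, hx0⟩ : Cj w (z⁻¹⁻¹ * v * z⁻¹) := hv.conj z⁻¹
      have hx0B : x0⁻¹ ∉ B := by
        intro h
        apply hn1
        refine ⟨x0⁻¹, h, ?_⟩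
        have : v = z⁻¹ * (z⁻¹⁻¹ * v * z⁻¹) * z := by group
        rw [this, hx0]
        simp
      have h1 : Cj (w ^ (1 + (-2) : ℤ)) ((x0⁻¹ * w ^ (1 : ℤ) * x0) *
          ((1 : G)⁻¹ * w ^ (-2 : ℤ) * 1)) := by
        refine T 1 (-2) ?_ (by simpa using hgood _ hx0B)
        intro h
        norm_num at h
        exact hw1 h
      obtain ⟨x', hx'⟩ := h1
      have hx'B : y' * x'⁻¹ ∉ B := by
        intro h
        apply hn2
        refine ⟨y' * x'⁻¹, h, ?_⟩
        have e1 : (y'⁻¹ * (y' * x'⁻¹)) * w⁻¹ * (y'⁻¹ * (y' * x'⁻¹))⁻¹ = x'⁻¹ * w⁻¹ * x' := by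
          group
        have e2 : x'⁻¹ * w⁻¹ * x' = (z⁻¹⁻¹ * v * z⁻¹) * w ^ (-2 : ℤ) := by
          rw [hx0]
          have : (x0⁻¹ * w * x0) * w ^ (-2 : ℤ) = (x0⁻¹ * w ^ (1 : ℤ) * x0) *
            ((1 : G)⁻¹ * w ^ (-2 : ℤ) * 1) := by simp
          rw [this, hx']
          norm_num
        simp only
        rw [e1, e2]
        have e3 : w ^ (-2 : ℤ) * w ^ 2 = 1 := by
          rw [← zpow_natCast, ← zpow_add]; norm_num
        rw [mul_assoc (z⁻¹⁻¹ * v * z⁻¹), e3]
        group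
      have h3 : Cj (w ^ ((1 + (-2)) + (1 + 1) : ℤ)) ((x'⁻¹ * w ^ (1 + (-2) : ℤ) * x') *
          (y'⁻¹ * w ^ (1 + 1 : ℤ) * y')) := by
        refine T _ _ ?_ (hgood _ hx'B)
        norm_num
        exact hw1
      rw [← hx', ← hy'] at h3
      have h4 := h3.conj z
      have e4 : ((1 : ℤ) + -2 + (1 + 1)) = 1 := by norm_num
      rw [e4, zpow_one] at h4
      have e5 : (x0⁻¹ * w * x0) * ((1 : G)⁻¹ * w ^ (-2 : ℤ) * 1)
          = (z⁻¹⁻¹ * v * z⁻¹) * w ^ (-2 : ℤ) := by rw [hx0]; simp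
      rw [e5] at h4
      convert h4 using 1
      have e2 : w ^ (-2 : ℤ) = w⁻¹ * w⁻¹ := by
        rw [zpow_neg]
        norm_cast
        rw [pow_two, mul_inv_rev]
      rw [e2]
      group
    -- choose `r`
    have hKc : (K : Set G)ᶜ.Infinite := by
      obtain ⟨g0, hg0⟩ : ∃ g0, g0 ∉ K := by
        by_contra h
        push Not at h
        exact hKt (eq_top_iff.2 fun g _ => h g)
      by_cases hKf : (K : Set G).Finite
      · exact hKf.infinite_compl
      · intro hcf
        apply hKf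
        have hsub : (fun k => g0 * k) '' (K : Set G) ⊆ (K : Set G)ᶜ := by
          rintro _ ⟨k, hk, rfl⟩
          intro h
          exact hg0 ((K.mul_mem_cancel_right hk).1 h)
        exact Set.Finite.of_finite_image (hcf.subset hsub) (mul_right_injective g0).injOn
    obtain ⟨r, hrK, hrB⟩ : ∃ r, r ∉ K ∧ r ∉ B ∪ (fun g => g⁻¹) '' B := by
      obtain ⟨r, hr, hr'⟩ := (hKc.sdiff (hBf.union (hBf.image (fun g : G => g⁻¹)))).nonempty
      exact ⟨r, hr, hr'⟩
    rw [Set.mem_union, not_or] at hrB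
    have hr1 : r * (1 : G)⁻¹ ∉ B := by simpa using hrB.1
    have hr2 : 1 * r⁻¹ ∉ B := by
      intro h
      apply hrB.2
      refine ⟨r⁻¹, by simpa using h, by simp⟩
    have hs : ((1 : G)⁻¹ * w⁻¹ * 1) * (r⁻¹ * w * r) ∈ stabCj w := by
      refine ⟨hmem r 1 hr1, ?_⟩
      have e : (((1 : G)⁻¹ * w⁻¹ * 1) * (r⁻¹ * w * r))⁻¹ = (r⁻¹ * w⁻¹ * r) * ((1 : G)⁻¹ * w * 1) := by
        group
      rw [e]
      exact hmem 1 r hr2
    have hs1 : ((1 : G)⁻¹ * w⁻¹ * 1) * (r⁻¹ * w * r) ≠ 1 := by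
      intro h
      apply hrK
      refine hK.mem_of_conj hwK hw1 ?_
      have : r⁻¹ * w * r = w := by
        have h' : w⁻¹ * (r⁻¹ * w * r) = 1 := by simpa using h
        exact (inv_mul_eq_one.1 h').symm
      rw [this]; exact hwK
    have htop := stabCj_eq_top hs1 hs
    have hwi : w⁻¹ ∈ stabCj w := by rw [htop]; trivial
    -- but `v w⁻¹` is not conjugate to `w` for almost all `v`
    have hcl := infinite_class hKt hK ha ha1 hw1
    have hinf : ({v | Cj w v} \ ((fun g => g⁻¹ * w * g) '' B ∪ {w})).Infinite :=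
      hcl.sdiff ((hBf.image _).union (Set.finite_singleton w))
    refine hinf (hwi.1.subset ?_)
    rintro v ⟨hv, hv'⟩
    refine ⟨hv, ?_⟩
    rw [Set.mem_union, not_or] at hv'
    obtain ⟨g, hg⟩ := hv
    have hgB : g ∉ B := by
      intro h
      exact hv'.1 ⟨g, h, hg.symm⟩
    have hvw : v ≠ w := fun h => hv'.2 (by rw [h]; rfl)
    have hfg := hgood g hgB
    obtain ⟨h1, f, hf, h2, h3⟩ := key hK hc hwK hw1 hwK hw1 hfg
    rintro ⟨h, hh⟩
    set L := gen w w g with hL
    obtain ⟨A, _, V, hinj, hsurj, hconj⟩ := exists_retraction (L := L) (hK.subgroupOf L)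
      (hc.subgroupOf L)
    let wL : L := ⟨w, h1⟩
    let fL : L := ⟨f, hf⟩
    have hwL : wL ∈ K.subgroupOf L := by rw [mem_subgroupOf]; exact hwK
    have hwL1 : wL ≠ 1 := fun h => hw1 (congrArg Subtype.val h)
    set e : L := (fL⁻¹ * wL * fL) * wL⁻¹ with he
    have hev : (e : G) = v * w⁻¹ := by
      change (f⁻¹ * w * f) * w⁻¹ = v * w⁻¹
      rw [hg, h2]
    have heh : e ∈ (cj K h).subgroupOf L := by
      rw [mem_subgroupOf, mem_cj, hev, hh]
      have : h * (h⁻¹ * w * h) * h⁻¹ = w := by group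
      rw [this]; exact hwK
    have he1 : e ≠ 1 := by
      intro h0
      have h5 : v * w⁻¹ = 1 := by rw [← hev, h0]; rfl
      exact hvw (mul_inv_eq_one.1 h5)
    obtain ⟨d, hd, k, hk⟩ := conj_of_two_malnormal (L := L) (hK.subgroupOf L) (hc.subgroupOf L)
      ((hK.cj h).subgroupOf L) ((hc.cj h).subgroupOf L) hwL hwL1 heh he1
    have hVe : V e = 1 := by
      rw [he, map_mul, map_mul, map_mul, map_inv, map_inv, mul_comm (V fL)⁻¹,
        inv_mul_cancel_right, mul_inv_cancel]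
    have hVd : V d = 1 := by
      rw [hk, map_mul, map_mul, map_inv, mul_comm (V k)⁻¹, inv_mul_cancel_right] at hVe
      exact hVe
    have hd1 := hinj d hd hVd
    apply he1
    rw [hk, hd1]
    group
  · push Not at hbK
    set B : Set G := {g | ¬ Finite (gen a b g)} with hB
    have hone : ∀ g : G, g ∉ B → Cj a (a * (g⁻¹ * b * g)) ∧ Cj a (a * (g⁻¹ * b * g)⁻¹) := by
      intro g hg
      have hfg : Finite (gen a b g) := by
        by_contra h
        exact hg h
      set L := gen a b g with hL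
      obtain ⟨A, _, V, hinj, hsurj, hconj⟩ := exists_retraction (L := L) (hK.subgroupOf L)
        (hc.subgroupOf L)
      let aL : L := ⟨a, left_mem_gen a b g⟩
      let eL : L := ⟨g⁻¹ * b * g, right_mem_gen a b g⟩
      have haL : aL ∈ K.subgroupOf L := by rw [mem_subgroupOf]; exact ha
      have haL1 : aL ≠ 1 := fun h => ha1 (congrArg Subtype.val h)
      have hVe : V eL = 1 := by
        obtain ⟨d, hd, hVd⟩ := hsurj eL
        by_cases hd1 : d = 1
        · rw [hVd, hd1, map_one]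
        · exfalso
          obtain ⟨f, hf⟩ := hconj d hd hd1 eL hVd
          have hf' : g⁻¹ * b * g = (f : G)⁻¹ * d * f := congrArg Subtype.val hf
          apply hbK (g * (f : G)⁻¹)
          have : (g * (f : G)⁻¹)⁻¹ * b * (g * (f : G)⁻¹) = f * (g⁻¹ * b * g) * (f : G)⁻¹ := by
            group
          rw [this, hf']
          have : (f : G) * ((f : G)⁻¹ * d * f) * (f : G)⁻¹ = d := by group
          rw [this]
          exact hd
      constructor
      · obtain ⟨f, hf⟩ := hconj aL haL haL1 (aL * eL) (by rw [map_mul, hVe, mul_one])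
        exact ⟨f, congrArg Subtype.val hf⟩
      · obtain ⟨f, hf⟩ := hconj aL haL haL1 (aL * eL⁻¹)
          (by rw [map_mul, map_inv, hVe, inv_one, mul_one])
        exact ⟨f, congrArg Subtype.val hf⟩
    have hbm : b ∈ stabCj a := by
      constructor
      · refine (hE.image (fun g => g * a * g⁻¹)).subset ?_
        rintro v ⟨⟨k, rfl⟩, hv'⟩
        by_contra hcon
        apply hv'
        have hkB : k⁻¹ ∉ B := by
          intro h
          exact hcon ⟨k⁻¹, h, by simp⟩
        have e : k⁻¹ * a * k * b = k⁻¹ * (a * (k⁻¹⁻¹ * b * k⁻¹)) * k := by group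
        rw [e]; exact (hone _ hkB).1.conj k
      · refine (hE.image (fun g => g * a * g⁻¹)).subset ?_
        rintro v ⟨⟨k, rfl⟩, hv'⟩
        by_contra hcon
        apply hv'
        have hkB : k⁻¹ ∉ B := by
          intro h
          exact hcon ⟨k⁻¹, h, by simp⟩
        have e : k⁻¹ * a * k * b⁻¹ = k⁻¹ * (a * (k⁻¹⁻¹ * b * k⁻¹)⁻¹) * k := by group
        rw [e]; exact (hone _ hkB).2.conj k
    have htop := stabCj_eq_top hb1 hbm
    have hai : a⁻¹ ∈ stabCj a := by rw [htop]; trivial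
    have hcl := infinite_class hKt hK ha ha1 hb1
    have hinf : ((fun v => a * v) '' ({v | Cj b v} \ ((fun g => g⁻¹ * b * g) '' B))).Infinite :=
      (hcl.sdiff (hE.image _)).image (mul_right_injective a).injOn
    refine hinf (hai.1.subset ?_)
    rintro _ ⟨v, ⟨⟨g, rfl⟩, hv'⟩, rfl⟩
    have hgB : g ∉ B := fun h => hv' ⟨g, h, rfl⟩
    refine ⟨(hone g hgB).1, ?_⟩
    rintro ⟨h, hh⟩
    apply hbK (g * a⁻¹ * h⁻¹)
    have : (g * a⁻¹ * h⁻¹)⁻¹ * b * (g * a⁻¹ * h⁻¹) = h * (a * (g⁻¹ * b * g) * a⁻¹) * h⁻¹ := by group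
    rw [this, hh]
    have : h * (h⁻¹ * a * h) * h⁻¹ = a := by group
    rw [this]; exact ha

end Pool.Agent.Helper36.QC
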