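import Pool.Agent.Helper36.QC.Defs

set_option autoImplicit false

/-!
# Malnormal abelian subgroups: a finite group with an abelian malnormal subgroup
-/

universe u

namespace Pool.Agent.Helper36.QC

open Subgroup MulAction

variable {G : Type u} [Group G]

lemma Malnormal.mem_of_conj {K : Subgroup G} (hK : Malnormal K) {g x : G} (hx : x ∈ K)
    (hx1 : x ≠ 1) (h : g⁻¹ * x * g ∈ K) : g ∈ K := by
  by_contra hg
  exact hx1 (hK g hg x hx h)

/-- the index of a malnormal subgroup of a finite group is prime to its order -/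
lemma Malnormal.pow_index_ne_one {L : Type u} [Group L] [Finite L] {D : Subgroup L}
    (hD : Malnormal D) {d : L} (hd : d ∈ D) (hd1 : d ≠ 1) : d ^ D.index ≠ 1 := by
  intro h
  have hdvd : orderOf d ∣ D.index := orderOf_dvd_of_pow_eq_one h
  have hne : orderOf d ≠ 1 := by rwa [Ne, orderOf_eq_one_iff]
  obtain ⟨p, hp, hpd⟩ := Nat.exists_prime_and_dvd hne
  have := Fact.mk hp
  have hpos : 0 < orderOf d := orderOf_pos d
  obtain ⟨m, hm⟩ := hpd
  have hm0 : m ≠ 0 := by
    intro h0
    rw [h0, mul_zero] at hm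
    omega
  set e : L := d ^ m with he
  have hoe : orderOf e = p := by
    rw [he, orderOf_pow' d hm0, hm, Nat.gcd_eq_right (Dvd.intro_left p rfl)]
    exact Nat.mul_div_cancel _ (Nat.pos_of_ne_zero hm0)
  have heD : e ∈ D := D.pow_mem hd m
  have he1 : e ≠ 1 := by
    intro h1
    rw [h1, orderOf_one] at hoe
    exact hp.one_lt.ne hoe
  have hP : IsPGroup p (zpowers e) := by
    refine IsPGroup.of_card (n := 1) ?_
    rw [Nat.card_zpowers, hoe, pow_one]
  have hmod := hP.card_modEq_card_fixedPoints (L ⧸ D)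
  have hfix : fixedPoints (zpowers e) (L ⧸ D) = {((1 : L) : L ⧸ D)} := by
    ext q
    induction q using QuotientGroup.induction_on with
    | H x =>
      simp only [mem_fixedPoints, Set.mem_singleton_iff]
      constructor
      · intro hq
        have h2 := hq ⟨e, mem_zpowers e⟩
        have h3 : ((e * x : L) : L ⧸ D) = (x : L ⧸ D) := h2
        rw [eq_comm, QuotientGroup.eq] at h3
        have h4 : x⁻¹ * e * x ∈ D := by simpa [mul_assoc] using h3
        have h5 : x ∈ D := hD.mem_of_conj heD he1 h4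
        rw [eq_comm, QuotientGroup.eq]
        simpa using h5
      · intro hq g
        rw [hq]
        obtain ⟨g, hg⟩ := g
        have hgD : g ∈ D := by
          obtain ⟨k, rfl⟩ := mem_zpowers_iff.1 hg
          exact D.zpow_mem heD k
        change ((g * 1 : L) : L ⧸ D) = ((1 : L) : L ⧸ D)
        rw [eq_comm, QuotientGroup.eq]
        simpa using hgD
  have hcard : Nat.card (fixedPoints (zpowers e) (L ⧸ D)) = 1 := by
    rw [hfix]; simp
  rw [hcard] at hmod
  have hidx : Nat.card (L ⧸ D) = D.index := rfl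
  rw [hidx] at hmod
  have h0 : p ∣ D.index := (Dvd.intro m hm.symm).trans hdvd
  have h1 : (1 : ℕ) ≡ 0 [MOD p] := hmod.symm.trans ((Nat.modEq_zero_iff_dvd).2 h0)
  have h2 : p ∣ 1 := (Nat.modEq_zero_iff_dvd).1 h1
  exact hp.one_lt.ne' (Nat.dvd_one.1 h2)

/-- the transfer to an abelian malnormal subgroup of a finite group -/
theorem exists_retraction {L : Type u} [Group L] [Finite L] {D : Subgroup L}
    (hD : Malnormal D) (hc : Comm D) :
    ∃ (A : Type u) (_ : CommGroup A) (V : L →* A),
      (∀ d ∈ D, V d = 1 → d = 1) ∧ (∀ y, ∃ d ∈ D, V y = V d) ∧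
      (∀ d ∈ D, d ≠ 1 → ∀ y, V y = V d → ∃ f, y = f⁻¹ * d * f) := by
  let iC : CommGroup D :=
    { (inferInstance : Group D) with
      mul_comm := fun x y => Subtype.ext (hc x x.2 y y.2) }
  have hfi : D.FiniteIndex := inferInstance
  set V : L →* D := MonoidHom.transfer (MonoidHom.id D) with hV
  have hVd : ∀ d (hd : d ∈ D), V d = ⟨d ^ D.index, D.pow_mem hd _⟩ := by
    intro d hd
    rw [hV, MonoidHom.transfer_eq_pow (MonoidHom.id D) d]
    · rfl
    · intro k g hk
      by_cases h1 : d ^ k = 1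
      · rw [h1]; group
      · have hg : g ∈ D := hD.mem_of_conj (D.pow_mem hd k) h1 hk
        rw [mul_assoc, hc _ (D.pow_mem hd k) _ hg, inv_mul_cancel_left]
  have hinj : ∀ d ∈ D, V d = 1 → d = 1 := by
    intro d hd h
    by_contra hd1
    rw [hVd d hd] at h
    exact hD.pow_index_ne_one hd hd1 (congrArg Subtype.val h)
  have hsurj : Function.Surjective (fun d : D => V (d : L)) := by
    apply Finite.surjective_of_injective
    intro x y hxy
    have hxy' : V (x : L) = V (y : L) := hxy
    have h1 : V ((x : L) * (y : L)⁻¹) = 1 := by rw [map_mul, map_inv, hxy', mul_inv_cancel]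
    have h2 := hinj _ (D.mul_mem x.2 (D.inv_mem y.2)) h1
    exact Subtype.ext (mul_inv_eq_one.1 h2)
  refine ⟨D, iC, V, hinj, ?_, ?_⟩
  · intro y
    obtain ⟨d, hd⟩ := hsurj (V y)
    exact ⟨d, d.2, hd.symm⟩
  · intro d hd hd1 y hy
    let φ : V.ker → V.ker := fun f =>
      ⟨d⁻¹ * ((f : L)⁻¹ * d * f), by
        have hf : V (f : L) = 1 := f.2
        rw [MonoidHom.mem_ker]
        simp only [map_mul, map_inv, hf]
        simp⟩
    have hφ : Function.Injective φ := by
      intro f g hfg
      have h1 : (f : L)⁻¹ * d * f = (g : L)⁻¹ * d * g := by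
        have := congrArg Subtype.val hfg
        exact mul_left_cancel this
      have h2 : ((g : L) * (f : L)⁻¹)⁻¹ * d * ((g : L) * (f : L)⁻¹) = d := by
        have h3 : ((g : L) * (f : L)⁻¹)⁻¹ * d * ((g : L) * (f : L)⁻¹)
            = (f : L) * ((g : L)⁻¹ * d * g) * (f : L)⁻¹ := by group
        rw [h3, ← h1]; group
      have h4 : (g : L) * (f : L)⁻¹ ∈ D := hD.mem_of_conj hd hd1 (by rw [h2]; exact hd)
      have hf : V (f : L) = 1 := f.2
      have hg : V (g : L) = 1 := g.2
      have h5 : (g : L) * (f : L)⁻¹ = 1 := hinj _ h4 (by rw [map_mul, map_inv, hf, hg]; simp)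
      exact Subtype.ext (mul_inv_eq_one.1 h5).symm
    obtain ⟨f, hf⟩ := Finite.surjective_of_injective hφ
      ⟨d⁻¹ * y, by rw [MonoidHom.mem_ker, map_mul, map_inv, hy, inv_mul_cancel]⟩
    have h1 : d⁻¹ * ((f : L)⁻¹ * d * f) = d⁻¹ * y := congrArg Subtype.val hf
    exact ⟨f, (mul_left_cancel h1).symm⟩

/-- in an abelian malnormal subgroup, centralizers of nontrivial elements are the subgroup -/
lemma Malnormal.centralizer_le {K : Subgroup G} (hK : Malnormal K) {x y : G} (hx : x ∈ K)
    (hx1 : x ≠ 1) (h : y * x = x * y) : y ∈ K := by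
  refine hK.mem_of_conj hx hx1 ?_
  rw [mul_assoc, ← h, inv_mul_cancel_left]; exact hx

/-- two abelian malnormal subgroups of a finite group: every nontrivial element of the second is
conjugate to an element of the first (if that is nontrivial) -/
theorem conj_of_two_malnormal {L : Type u} [Group L] [Finite L] {D D' : Subgroup L}
    (hD : Malnormal D) (hc : Comm D) (hD' : Malnormal D') (hc' : Comm D')
    {a e : L} (ha : a ∈ D) (ha1 : a ≠ 1) (he : e ∈ D') (he1 : e ≠ 1) :
    ∃ d ∈ D, ∃ f, e = f⁻¹ * d * f := by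
  obtain ⟨A, _, V, hinj, hsurj, hconj⟩ := exists_retraction hD hc
  obtain ⟨A', _, V', hinj', hsurj', hconj'⟩ := exists_retraction hD' hc'
  obtain ⟨d, hd, hVd⟩ := hsurj e
  by_cases hd1 : d = 1
  · have hVe : V e = 1 := by rw [hVd, hd1, map_one]
    obtain ⟨f, hf⟩ := hconj a ha ha1 (a * e) (by rw [map_mul, hVe, mul_one])
    obtain ⟨d', hd', hVd'⟩ := hsurj' a
    by_cases hd'1 : d' = 1
    · exfalso
      have hVa : V' a = 1 := by rw [hVd', hd'1, map_one]
      obtain ⟨f', hf'⟩ := hconj' e he he1 (a * e) (by rw [map_mul, hVa, one_mul])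
      have h1 : V (a * e) = V e := by
        rw [hf', map_mul, map_mul, map_inv, mul_comm, mul_inv_cancel_left]
      rw [map_mul, hVe, mul_one] at h1
      exact ha1 (hinj a ha h1)
    · obtain ⟨f', hf'⟩ := hconj' d' hd' hd'1 a hVd'
      -- `a = f'⁻¹ d' f'`; `f' a f'⁻¹ = d' ∈ D'`
      refine ⟨f'⁻¹ * e * f', ?_, f'⁻¹, by group⟩
      -- `f'⁻¹ e f'` commutes with `a`
      refine hD.centralizer_le ha ha1 ?_
      have h1 : e * d' = d' * e := hc' e he d' hd'
      have h2 : f'⁻¹ * e * f' * (f'⁻¹ * d' * f') = f'⁻¹ * (e * d') * f' := by group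
      have h3 : (f'⁻¹ * d' * f') * (f'⁻¹ * e * f') = f'⁻¹ * (d' * e) * f' := by group
      rw [hf', h2, h3, h1]
  · obtain ⟨f, hf⟩ := hconj d hd hd1 e hVd
    exact ⟨d, hd, f, hf⟩

end Pool.Agent.Helper36.QC
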