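import Mathlib

set_option autoImplicit false

/-!
# Automorphisms of `p`-power order of divisible abelian `p`-groups of rank less than `p - 1`
-/

namespace Pool.Agent.Helper36.QC

open Polynomial

/-- `∑_{i<p} X^i = (X-1)^(p-1) + p q` with `q = 1 + (X-1) r`. -/
lemma exists_poly (p : ℕ) [hp : Fact p.Prime] : ∃ r : ℤ[X],
    ∑ i ∈ Finset.range p, (X : ℤ[X]) ^ i
      = (X - 1) ^ (p - 1) + (p : ℤ[X]) * (1 + (X - 1) * r) := by
  -- reduction mod p
  have h1 : ∃ q : ℤ[X], ∑ i ∈ Finset.range p, (X : ℤ[X]) ^ i - (X - 1) ^ (p - 1)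
      = (p : ℤ[X]) * q := by
    have hdvd : (C (p : ℤ)) ∣ (∑ i ∈ Finset.range p, (X : ℤ[X]) ^ i - (X - 1) ^ (p - 1)) := by
      rw [C_dvd_iff_dvd_coeff]
      intro n
      have hz : (((∑ i ∈ Finset.range p, (X : ℤ[X]) ^ i - (X - 1) ^ (p - 1)).coeff n : ℤ) : ZMod p)
          = 0 := by
        have hmap : (∑ i ∈ Finset.range p, (X : ℤ[X]) ^ i - (X - 1) ^ (p - 1)).map
            (Int.castRingHom (ZMod p)) = 0 := by
          have hmul : (X - 1 : (ZMod p)[X]) * (∑ i ∈ Finset.range p, (X : (ZMod p)[X]) ^ i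
              - (X - 1) ^ (p - 1)) = 0 := by
            have e1 : (X - 1 : (ZMod p)[X]) * (∑ i ∈ Finset.range p, (X : (ZMod p)[X]) ^ i)
                = X ^ p - 1 := by
              rw [mul_comm]; exact geom_sum_mul X p
            have e2 : (X - 1 : (ZMod p)[X]) * (X - 1) ^ (p - 1) = (X - 1) ^ p := by
              rw [← pow_succ']
              congr 1
              have := hp.out.pos
              omega
            rw [mul_sub, e1, e2, sub_pow_char, one_pow, sub_self]
          have hne : (X - 1 : (ZMod p)[X]) ≠ 0 := by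
            have := Polynomial.X_sub_C_ne_zero (1 : ZMod p)
            simpa using this
          have h0 := (mul_eq_zero.1 hmul).resolve_left hne
          simp only [Polynomial.map_sub, Polynomial.map_pow, Polynomial.map_X, Polynomial.map_one,
            Polynomial.map_sum]
          exact h0
        have h := congrArg (fun q => coeff q n) hmap
        simpa only [coeff_map, coeff_zero, eq_intCast] using h
      exact (ZMod.intCast_zmod_eq_zero_iff_dvd _ p).1 hz
    obtain ⟨q, hq⟩ := hdvd
    exact ⟨q, by rw [hq]; simp⟩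
  obtain ⟨q, hq⟩ := h1
  have hq1 : q.eval 1 = 1 := by
    have h2 := congrArg (eval 1) hq
    have hp2 := hp.out.two_le
    have hpm : p - 1 ≠ 0 := by omega
    simp only [eval_sub, eval_finsetSum, eval_pow, eval_X, one_pow, Finset.sum_const,
      Finset.card_range, nsmul_eq_mul, mul_one, eval_one, sub_self, zero_pow hpm, sub_zero,
      eval_mul, eval_natCast] at h2
    have hp0 : (p : ℤ) ≠ 0 := by exact_mod_cast hp.out.ne_zero
    have h3 : (p : ℤ) * 1 = p * eval 1 q := by rw [mul_one]; exact h2
    exact (mul_left_cancel₀ hp0 h3).symm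
  have hdvd : (X - C 1 : ℤ[X]) ∣ q - 1 := by
    rw [dvd_iff_isRoot]
    simp [hq1]
  obtain ⟨r, hr⟩ := hdvd
  refine ⟨r, ?_⟩
  have h4 : q = 1 + (X - 1) * r := by
    have : (X - C 1 : ℤ[X]) = X - 1 := by simp
    rw [← this, ← hr]; ring
  rw [← h4, ← hq]; ring

variable {M : Type*} [AddCommGroup M]

/-- an automorphism of order `p` of a divisible abelian `p`-group of rank `< p - 1` is trivial -/
theorem trivial_of_pow (p : ℕ) [hp : Fact p.Prime] (hdiv : ∀ x : M, ∃ y, p • y = x)
    (htor : ∀ x : M, ∃ k : ℕ, p ^ k • x = 0) (hfin : {x : M | p • x = 0}.Finite)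
    (hcard : {x : M | p • x = 0}.ncard < p ^ (p - 1)) (σ : Module.End ℤ M) (hσ : σ ^ p = 1) :
    σ = 1 := by
  by_contra hne
  obtain ⟨r, hr⟩ := exists_poly p
  set π : Module.End ℤ M := σ - 1 with hπ
  -- `T = π M`
  set T : Submodule ℤ M := LinearMap.range π with hT
  set ρ : Module.End ℤ M := aeval σ r with hρ
  have hcomm : Commute π ρ := by
    have h1 : π = aeval σ (X - 1 : ℤ[X]) := by simp [hπ]
    rw [h1, hρ]
    exact (Commute.all (X - 1 : ℤ[X]) r).map (aeval σ)
  have hpoly : ∑ i ∈ Finset.range p, σ ^ i = π ^ (p - 1) + (p : Module.End ℤ M) * (1 + π * ρ) := by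
    have := congrArg (aeval σ) hr
    simpa [hπ, hρ] using this
  have hT0 : ∀ t ∈ T, (π ^ (p - 1)) t + p • (t + π (ρ t)) = 0 := by
    rintro t ⟨s, rfl⟩
    have h1 : (∑ i ∈ Finset.range p, σ ^ i) * π = 0 := by
      rw [hπ, geom_sum_mul, hσ, sub_self]
    have h2 := congrArg (fun f : Module.End ℤ M => f s) h1
    simp only [Module.End.mul_apply, LinearMap.zero_apply] at h2
    rw [hpoly] at h2
    simpa [Module.End.mul_apply, LinearMap.add_apply] using h2
  have hTπ : ∀ t ∈ T, π t ∈ T := by
    rintro t ⟨s, rfl⟩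
    exact ⟨π s, rfl⟩
  have hTdiv : ∀ t ∈ T, ∃ s ∈ T, p • s = t := by
    rintro t ⟨s, rfl⟩
    obtain ⟨y, rfl⟩ := hdiv s
    exact ⟨π y, ⟨y, rfl⟩, by rw [map_nsmul]⟩
  have hTρ : ∀ t ∈ T, ρ t ∈ T := by
    rintro t ⟨s, rfl⟩
    refine ⟨ρ s, ?_⟩
    have := congrArg (fun f : Module.End ℤ M => f s) hcomm.eq
    simpa [Module.End.mul_apply] using this
  have hTpow : ∀ k : ℕ, ∀ t ∈ T, (π ^ k) t ∈ T := by
    intro k
    induction k with
    | zero => intro t ht; simpa using ht
    | succ k ih =>
      intro t ht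
      rw [pow_succ, Module.End.mul_apply]
      exact ih _ (hTπ t ht)
  -- `π` is surjective on `T`
  have hsurj : ∀ t ∈ T, ∃ s ∈ T, π s = t := by
    intro t ht
    obtain ⟨s, hs, rfl⟩ := hTdiv t ht
    have h1 := hT0 s hs
    have hp2 := hp.out.two_le
    have h2 : (π ^ (p - 1)) s = π ((π ^ (p - 2)) s) := by
      rw [← Module.End.mul_apply, ← pow_succ']
      congr 2
      omega
    refine ⟨-((π ^ (p - 2)) s) - p • ρ s, ?_, ?_⟩
    · exact T.sub_mem (T.neg_mem (hTpow _ _ hs)) (T.smul_of_tower_mem p (hTρ s hs))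
    · rw [map_sub, map_neg, map_nsmul, ← h2]
      have h3 : p • s = -((π ^ (p - 1)) s) - p • π (ρ s) := by
        rw [smul_add] at h1
        rw [eq_sub_iff_add_eq, eq_neg_iff_add_eq_zero, add_comm, ← h1]
      rw [h3]
  have hsurj' : ∀ k : ℕ, ∀ t ∈ T, ∃ s ∈ T, (π ^ k) s = t := by
    intro k
    induction k with
    | zero => intro t ht; exact ⟨t, ht, by simp⟩
    | succ k ih =>
      intro t ht
      obtain ⟨s, hs, rfl⟩ := hsurj t ht
      obtain ⟨u, hu, rfl⟩ := ih s hs
      exact ⟨u, hu, by rw [pow_succ', Module.End.mul_apply]⟩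
  -- the kernels
  let K : ℕ → AddSubgroup M := fun k =>
    { carrier := {t | t ∈ T ∧ (π ^ k) t = 0}
      zero_mem' := ⟨T.zero_mem, map_zero _⟩
      add_mem' := fun {a b} ha hb => ⟨T.add_mem ha.1 hb.1, by rw [map_add, ha.2, hb.2, add_zero]⟩
      neg_mem' := fun {a} ha => ⟨T.neg_mem ha.1, by rw [map_neg, ha.2, neg_zero]⟩ }
  have hKmem : ∀ k t, t ∈ K k ↔ t ∈ T ∧ (π ^ k) t = 0 := fun k t => Iff.rfl
  -- the last kernel is killed by `p`
  have hKp : ∀ t ∈ K (p - 1), p • t = 0 := by
    intro t ht
    obtain ⟨htT, ht0⟩ := ht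
    have h1 := hT0 t htT
    rw [ht0, zero_add, smul_add] at h1
    -- `p t = - π ρ (p t)`
    have h2 : p • t = (-(π * ρ)) (p • t) := by
      rw [LinearMap.neg_apply, Module.End.mul_apply, map_nsmul, map_nsmul]
      exact eq_neg_of_add_eq_zero_left h1
    have h3 : ∀ k : ℕ, p • t = ((-(π * ρ)) ^ k) (p • t) := by
      intro k
      induction k with
      | zero => simp
      | succ k ih =>
        rw [pow_succ, Module.End.mul_apply, ← h2]
        exact ih
    have h4 := h3 (p - 1)
    have h5 : (-(π * ρ)) ^ (p - 1) = ((-ρ) ^ (p - 1)) * π ^ (p - 1) := by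
      have : -(π * ρ) = (-ρ) * π := by rw [neg_mul, hcomm.eq]
      rw [this, Commute.mul_pow]
      exact (Commute.neg_left hcomm.symm)
    rw [h5, Module.End.mul_apply, map_nsmul, ht0, smul_zero, map_zero] at h4
    exact h4
  -- all kernels up to `p - 1` are finite
  have hKfin : ∀ k ≤ p - 1, Finite (K k) := by
    intro k hk
    have hsub : ((K k : AddSubgroup M) : Set M) ⊆ {x : M | p • x = 0} := by
      intro t ht
      apply hKp
      refine ⟨ht.1, ?_⟩
      have : (π ^ (p - 1)) t = (π ^ (p - 1 - k)) ((π ^ k) t) := by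
        rw [← Module.End.mul_apply, ← pow_add]
        congr 2
        omega
      rw [this, ht.2, map_zero]
    exact (hfin.subset hsub).to_subtype
  -- `T ≠ 0`
  have hTne : ∃ t ∈ T, t ≠ 0 := by
    by_contra h
    push Not at h
    apply hne
    have hπ0 : π = 0 := by
      ext x
      exact h _ ⟨x, rfl⟩
    rw [hπ, sub_eq_zero] at hπ0
    exact hπ0
  -- `K 1` has at least `p` elements
  have hK1 : p ≤ Nat.card (K 1) := by
    have hp2 := hp.out.two_le
    have hf1 : Finite (K 1) := hKfin 1 (by omega)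
    -- a nonzero element
    have hex : ∃ t ∈ K 1, t ≠ 0 := by
      by_contra h
      push Not at h
      -- `π` is injective on `T`
      have hinj : ∀ k : ℕ, ∀ t ∈ T, (π ^ k) t = 0 → t = 0 := by
        intro k
        induction k with
        | zero => intro t _ h0; simpa using h0
        | succ k ih =>
          intro t ht h0
          rw [pow_succ, Module.End.mul_apply] at h0
          have h1 := ih _ (hTπ t ht) h0
          exact h t ⟨ht, by rw [pow_one]; exact h1⟩
      -- but `T` has an element of order `p`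
      obtain ⟨t, ht, ht0⟩ := hTne
      obtain ⟨k, hk⟩ := htor t
      have hk' : ∃ s ∈ T, s ≠ 0 ∧ p • s = 0 := by
        clear hinj h
        induction k generalizing t with
        | zero => simp at hk; exact absurd hk ht0
        | succ k ih =>
          by_cases h0 : p • t = 0
          · exact ⟨t, ht, ht0, h0⟩
          · refine ih (p • t) (T.smul_of_tower_mem p ht) h0 ?_
            rw [← mul_smul, ← pow_succ]; exact hk
      obtain ⟨s, hs, hs0, hps⟩ := hk'
      apply hs0
      apply hinj (p - 1) s hs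
      have h1 := hT0 s hs
      rw [smul_add, hps, zero_add, ← map_nsmul, ← map_nsmul, hps, map_zero, map_zero, add_zero] at h1
      exact h1
    obtain ⟨t, ht, ht0⟩ := hex
    have hpt : p • t = 0 := by
      apply hKp
      refine ⟨ht.1, ?_⟩
      have : (π ^ (p - 1)) t = (π ^ (p - 1 - 1)) ((π ^ 1) t) := by
        rw [← Module.End.mul_apply, ← pow_add]
        congr 2
        omega
      rw [this, ht.2, map_zero]
    have hord : addOrderOf (⟨t, ht⟩ : K 1) = p := by
      apply addOrderOf_eq_prime
      · exact Subtype.ext hpt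
      · intro h; exact ht0 (congrArg Subtype.val h)
    rw [← hord]
    exact Nat.le_of_dvd Nat.card_pos (addOrderOf_dvd_natCard _)
  -- cardinalities
  have hKcard : ∀ k ≤ p - 1, p ^ k ≤ Nat.card (K k) := by
    intro k
    induction k with
    | zero =>
      intro _
      have : Finite (K 0) := hKfin 0 (by omega)
      rw [pow_zero]
      exact Nat.card_pos
    | succ k ih =>
      intro hk
      have hf : Finite (K (k + 1)) := hKfin (k + 1) hk
      have hfk : Finite (K k) := hKfin k (by omega)
      have hf1 : Finite (K 1) := hKfin 1 (by omega)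
      -- the map `π^k : K (k+1) → K 1`
      let φ : K (k + 1) →+ K 1 :=
        { toFun := fun t => ⟨(π ^ k) t, hTpow k t t.2.1, by
            rw [pow_one, ← Module.End.mul_apply, ← pow_succ']; exact t.2.2⟩
          map_zero' := Subtype.ext (by simp)
          map_add' := fun a b => Subtype.ext (by simp) }
      have hφ : Function.Surjective φ := by
        rintro ⟨t, ht⟩
        obtain ⟨s, hs, hst⟩ := hsurj' k t ht.1
        refine ⟨⟨s, hs, ?_⟩, Subtype.ext hst⟩
        rw [pow_succ', Module.End.mul_apply, hst]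
        have := ht.2
        rwa [pow_one] at this
      have hker : Nat.card φ.ker = Nat.card (K k) := by
        refine Nat.card_congr ⟨fun t => ⟨t.1.1, t.1.2.1, ?_⟩, fun t => ⟨⟨t.1, t.2.1, ?_⟩, ?_⟩, ?_, ?_⟩
        · exact congrArg Subtype.val t.2
        · rw [pow_succ', Module.End.mul_apply, t.2.2, map_zero]
        · exact Subtype.ext t.2.2
        · intro t; rfl
        · intro t; rfl
      have h1 := AddSubgroup.card_mul_index φ.ker
      rw [AddSubgroup.index_ker, AddMonoidHom.range_eq_top.2 hφ, hker] at h1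
      have h2 : Nat.card (⊤ : AddSubgroup (K 1)) = Nat.card (K 1) := by
        simp
      rw [h2] at h1
      rw [← h1, pow_succ]
      exact Nat.mul_le_mul (ih (by omega)) hK1
  have hlast := hKcard (p - 1) le_rfl
  have hsub : ((K (p - 1) : AddSubgroup M) : Set M) ⊆ {x : M | p • x = 0} := fun t ht => hKp t ht
  have h1 : Nat.card (K (p - 1)) ≤ {x : M | p • x = 0}.ncard := by
    have := Set.ncard_le_ncard hsub hfin
    exact this
  omega

/-- an automorphism of `p`-power order of a divisible abelian `p`-group of rank `< p - 1` is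
trivial -/
theorem trivial_of_pow_pow (p : ℕ) [hp : Fact p.Prime] (hdiv : ∀ x : M, ∃ y, p • y = x)
    (htor : ∀ x : M, ∃ k : ℕ, p ^ k • x = 0) (hfin : {x : M | p • x = 0}.Finite)
    (hcard : {x : M | p • x = 0}.ncard < p ^ (p - 1)) (k : ℕ) (σ : Module.End ℤ M)
    (hσ : σ ^ (p ^ k) = 1) : σ = 1 := by
  induction k with
  | zero => simpa using hσ
  | succ k ih =>
    apply ih
    apply trivial_of_pow p hdiv htor hfin hcard
    rw [← pow_mul, ← pow_succ]
    exact hσ

end Pool.Agent.Helper36.QC
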