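import Pool.Agent.Helper36.QC.Final1
import Pool.Agent.Helper36.QC.Rank

set_option autoImplicit false

/-!
# Simple quasi-Chernikov groups with nilpotent finite subgroups
-/

universe u

namespace Pool.Agent.Helper36.QC

open Subgroup Pointwise

variable {G : Type u} [Group G]

/-- `A` is divisible -/
def Dvb (A : Subgroup G) : Prop := ∀ x ∈ A, ∀ n : ℕ, 0 < n → ∃ y ∈ A, y ^ n = x

/-- the centre of `H` has finite index in `H` -/
def CentreByFinite (H : Subgroup G) : Prop := (center H).FiniteIndex

lemma not_finiteIndex [IsSimpleGroup G] [Infinite G] {H : Subgroup G} (hH : H ≠ ⊤) :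
    ¬ H.FiniteIndex := by
  intro hf
  have hN : H.normalCore.FiniteIndex := inferInstance
  rcases IsSimpleGroup.eq_bot_or_eq_top_of_normal _ (normalCore_normal H) with h | h
  · rw [h] at hN
    have h1 := (Subgroup.finiteIndex_iff.1 hN)
    rw [index_bot] at h1
    exact h1 Nat.card_eq_zero_of_infinite
  · apply hH
    rw [eq_top_iff, ← h]
    exact normalCore_le H

/-- The divisible part of a proper subgroup of a quasi-Chernikov group, as a subgroup of `G`. -/
lemma exists_divPart (hG : IsQuasiChernikov G) {H : Subgroup G} (hH : H ≠ ⊤) :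
    ∃ N : Subgroup G, N ≤ H ∧ Comm N ∧ Dvb N ∧ (∀ A : Subgroup G, A ≤ H → Dvb A → A ≤ N) ∧
      (∀ u ∈ H, ∀ x ∈ N, u * x * u⁻¹ ∈ N) ∧ (N.subgroupOf H).FiniteIndex := by
  obtain ⟨N, hN, hfi, hc, hdiv, -⟩ := hG.2 H hH
  refine ⟨N.map H.subtype, ?_, ?_, ?_, ?_, ?_, ?_⟩
  · rintro _ ⟨x, -, rfl⟩
    exact x.2
  · rintro _ ⟨x, hx, rfl⟩ _ ⟨y, hy, rfl⟩
    exact congrArg Subtype.val (hc x hx y hy)
  · rintro _ ⟨x, hx, rfl⟩ n hn
    obtain ⟨y, hy, hyx⟩ := hdiv x hx n hn
    exact ⟨y, ⟨y, hy, rfl⟩, congrArg Subtype.val hyx⟩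
  · intro A hA hAd x hx
    have hi : 0 < N.index := Nat.pos_of_ne_zero (finiteIndex_iff.1 hfi)
    obtain ⟨y, hy, rfl⟩ := hAd x hx N.index hi
    exact ⟨⟨y, hA hy⟩ ^ N.index, N.pow_index_mem _, rfl⟩
  · rintro u hu _ ⟨x, hx, rfl⟩
    exact ⟨⟨u, hu⟩ * x * ⟨u, hu⟩⁻¹, hN.conj_mem x hx ⟨u, hu⟩, rfl⟩
  · have : (N.map H.subtype).subgroupOf H = N := by
      rw [subgroupOf, comap_map_eq_self_of_injective H.subtype_injective]
    rw [this]; exact hfi

/-- the main argument when one centralizer is infinite -/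
theorem good_infinite_of_centre [IsSimpleGroup G] (hG : IsQuasiChernikov G) {a b : G}
    (ha1 : a ≠ 1) (hb1 : b ≠ 1)
    (hz : ∀ g : G, Finite (gen a b g) → ∃ z ∈ gen a b g, z ≠ 1 ∧ ∀ y ∈ gen a b g, y * z = z * y)
    (hinf : Infinite (centralizer ({a} : Set G)))
    (hcf : CentreByFinite (centralizer ({a} : Set G))) : (good a b).Infinite := by
  have := hG.infinite
  intro hfin
  set C : Subgroup G := centralizer ({a} : Set G) with hC
  have hCt : C ≠ ⊤ := centralizer_ne_top ha1
  -- the good set is empty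
  have hempty : ∀ g, g ∉ good a b := by
    intro g hg
    have h1 : (fun c : G => g * c) '' (C : Set G) ⊆ good a b := by
      rintro _ ⟨c, hc, rfl⟩
      have hca : c * a = a * c := (mem_centralizer_singleton_iff.1 hc)
      change gen a b (g * c) = ⊤
      have hg' : gen a b g = ⊤ := hg
      rw [eq_top_iff]
      intro x _
      have h2 : gen a b g ≤ (gen a b (g * c)).map (MulAut.conj c).toMonoidHom := by
        refine gen_le ?_ ?_
        · refine ⟨a, left_mem_gen _ _ _, ?_⟩
          simp [hca]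
        · refine ⟨_, right_mem_gen a b (g * c), ?_⟩
          simp; group
      have h3 : c * x * c⁻¹ ∈ gen a b g := by rw [hg']; trivial
      obtain ⟨y, hy, hyx⟩ := h2 h3
      have h4 : y = x := by
        have : c * y * c⁻¹ = c * x * c⁻¹ := by simpa using hyx
        exact mul_left_cancel (mul_right_cancel this)
      rw [← h4]; exact hy
    have h2 : ((fun c : G => g * c) '' (C : Set G)).Finite := hfin.subset h1
    have h3 : (C : Set G).Finite := Set.Finite.of_finite_image h2 (mul_right_injective g).injOn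
    exact (Set.infinite_coe_iff.1 hinf) h3
  -- divisible part of the centralizer
  obtain ⟨A0, hA0C, hA0c, hA0d, -, -, hA0f⟩ := exists_divPart hG hCt
  have hA0z : ∀ x ∈ A0, ∀ y ∈ C, y * x = x * y := by
    intro x hx y hy
    have hi : 0 < (center C).index := Nat.pos_of_ne_zero (finiteIndex_iff.1 hcf)
    obtain ⟨t, ht, rfl⟩ := hA0d x hx (center C).index hi
    have h1 : (⟨t, hA0C ht⟩ : C) ^ (center C).index ∈ center C := (center C).pow_index_mem _
    have h2 := mem_center_iff.1 h1 ⟨y, hy⟩
    exact congrArg Subtype.val h2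
  have hA0ne : A0 ≠ ⊥ := by
    intro h
    rw [h, bot_subgroupOf, finiteIndex_iff, index_bot] at hA0f
    exact hA0f (@Nat.card_eq_zero_of_infinite _ hinf)
  -- the centralizer of `A0`
  set C0 : Subgroup G := centralizer (A0 : Set G) with hC0
  have hC0t : C0 ≠ ⊤ := by
    intro h
    apply hA0ne
    rw [eq_bot_iff, ← center_eq_bot (G := G)]
    intro x hx
    rw [mem_center_iff]
    intro y
    have hy : y ∈ C0 := by rw [h]; trivial
    exact ((mem_centralizer_iff.1 hy) x hx).symm
  obtain ⟨A, hAC0, hAc, hAd, hAmax, -, -⟩ := exists_divPart hG hC0t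
  have hA0A : A0 ≤ A := by
    refine hAmax A0 ?_ hA0d
    intro x hx
    rw [hC0, mem_centralizer_iff]
    intro y hy
    exact hA0c y hy x hx
  -- every conjugate of `b` normalizes `A`
  have hnorm : ∀ g : G, ∀ u ∈ gen a b g, ∀ x ∈ A, u * x * u⁻¹ ∈ A := by
    intro g u hu x hx
    have hfg : Finite (gen a b g) := by
      by_contra h
      exact hempty g (hG.gen_eq_top h)
    obtain ⟨z, hzg, hz1, hzc⟩ := hz g hfg
    set H : Subgroup G := centralizer ({z} : Set G) with hH
    have hHt : H ≠ ⊤ := centralizer_ne_top hz1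
    have hzC : z ∈ C := by
      rw [hC, mem_centralizer_singleton_iff]
      exact (hzc a (left_mem_gen _ _ _)).symm
    have hA0H : A0 ≤ H := by
      intro y hy
      rw [hH, mem_centralizer_singleton_iff]
      exact (hA0z y hy z hzC).symm
    obtain ⟨D, hDH, hDc, hDd, hDmax, hDn, -⟩ := exists_divPart hG hHt
    have hA0D : A0 ≤ D := hDmax A0 hA0H hA0d
    have hDA : D ≤ A := by
      refine hAmax D ?_ hDd
      intro y hy
      rw [hC0, mem_centralizer_iff]
      intro t ht
      exact hDc t (hA0D ht) y hy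
    have huH : u ∈ H := by
      rw [hH, mem_centralizer_singleton_iff]
      exact hzc u hu
    -- `u A u⁻¹` is a divisible subgroup of `C0`
    have hle : A.map (MulAut.conj u).toMonoidHom ≤ A := by
      refine hAmax _ ?_ ?_
      · rintro _ ⟨y, hy, rfl⟩
        rw [hC0, mem_centralizer_iff]
        intro t ht
        have ht1 : u⁻¹ * t * u ∈ D := by
          have := hDn u⁻¹ (inv_mem huH) t (hA0D ht)
          rwa [inv_inv] at this
        have ht2 := hAc y hy _ (hDA ht1)
        change t * (u * y * u⁻¹) = u * y * u⁻¹ * t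
        have e1 : t * (u * y * u⁻¹) = u * ((u⁻¹ * t * u) * y) * u⁻¹ := by group
        have e2 : u * y * u⁻¹ * t = u * (y * (u⁻¹ * t * u)) * u⁻¹ := by group
        rw [e1, e2, ht2]
      · rintro _ ⟨y, hy, rfl⟩ n hn
        obtain ⟨w, hw, rfl⟩ := hAd y hy n hn
        exact ⟨_, ⟨w, hw, rfl⟩, by rw [map_pow]⟩
    exact hle ⟨x, hx, rfl⟩
  have hAn : A.Normal := by
    have hb : ∀ g : G, g⁻¹ * b * g ∈ normalizer (A : Set G) := by
      intro g
      rw [mem_normalizer_iff]
      intro x
      constructor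
      · intro hx
        exact hnorm g _ (right_mem_gen _ _ _) x hx
      · intro hx
        have := hnorm g _ (inv_mem (right_mem_gen a b g)) _ hx
        have e : (g⁻¹ * b * g)⁻¹ * (g⁻¹ * b * g * x * (g⁻¹ * b * g)⁻¹) * (g⁻¹ * b * g)⁻¹⁻¹ = x := by
          group
        rwa [e] at this
    have hle : normalClosure ({b} : Set G) ≤ normalizer (A : Set G) := by
      rw [normalClosure, closure_le]
      intro y hy
      obtain ⟨t, ht, hty⟩ := Group.mem_conjugatesOfSet_iff.1 hy
      rw [Set.mem_singleton_iff] at ht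
      subst ht
      obtain ⟨c, hc⟩ := isConj_iff.1 hty
      have := hb c⁻¹
      rw [inv_inv] at this
      rw [← hc]
      exact this
    have htop : normalClosure ({b} : Set G) = ⊤ := by
      rcases IsSimpleGroup.eq_bot_or_eq_top_of_normal (normalClosure ({b} : Set G))
        normalClosure_normal with h | h
      · exfalso
        apply hb1
        have : b ∈ normalClosure ({b} : Set G) := subset_normalClosure rfl
        rw [h, mem_bot] at this
        exact this
      · exact h
    rw [htop, top_le_iff] at hle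
    exact normalizer_eq_top_iff.1 hle
  rcases IsSimpleGroup.eq_bot_or_eq_top_of_normal A hAn with h | h
  · apply hA0ne
    rw [eq_bot_iff, ← h]
    exact hA0A
  · apply hC0t
    rw [eq_top_iff, ← h]
    exact hAC0

end Pool.Agent.Helper36.QC
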