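import Pool.Agent.Helper36.QC.Nilp

set_option autoImplicit false

/-!
# Simple quasi-Chernikov groups with nilpotent finite subgroups, continued
-/

universe u

namespace Pool.Agent.Helper36.QC

open Subgroup Pointwise

variable {G : Type u} [Group G]

/-- the main argument when both centralizers are finite -/
theorem good_infinite_of_finite [IsSimpleGroup G] (hG : IsQuasiChernikov G) {a b : G}
    (hz : ∀ g : G, Finite (gen a b g) → ∃ z ∈ gen a b g, z ≠ 1 ∧ ∀ y ∈ gen a b g, y * z = z * y)
    (ha : Finite (centralizer ({a} : Set G))) (hb : Finite (centralizer ({b} : Set G))) :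
    (good a b).Infinite := by
  classical
  have := hG.infinite
  intro hfin
  have hfin' : Finite (good a b) := hfin
  let ι := (good a b) ⊕ ({z : centralizer ({a} : Set G) // (z : G) ≠ 1} ×
    centralizer ({b} : Set G))
  have hι : Finite ι := inferInstance
  have : Fintype ι := Fintype.ofFinite ι
  let H : ι → Subgroup G := fun i => match i with
    | Sum.inl _ => ⊥
    | Sum.inr (z, _) => centralizer ({((z : centralizer ({a} : Set G)) : G)} : Set G)
  let c : ι → G := fun i => match i with
    | Sum.inl g => g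
    | Sum.inr (z, w) => if h : ∃ g : G, g * (z : centralizer ({a} : Set G)) * g⁻¹ = (w : G)
        then h.choose else 1
  have hcov : ⋃ i ∈ (Finset.univ : Finset ι), (c i) • (H i : Set G) = Set.univ := by
    rw [Set.eq_univ_iff_forall]
    intro g
    simp only [Finset.mem_univ, Set.iUnion_true, Set.mem_iUnion]
    by_cases hg : g ∈ good a b
    · refine ⟨Sum.inl ⟨g, hg⟩, ?_⟩
      change g ∈ g • ((⊥ : Subgroup G) : Set G)
      rw [mem_leftCoset_iff]
      simp
    · have hfg : Finite (gen a b g) := by
        by_contra h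
        exact hg (hG.gen_eq_top h)
      obtain ⟨z, hzg, hz1, hzc⟩ := hz g hfg
      have hza : z ∈ centralizer ({a} : Set G) := by
        rw [mem_centralizer_singleton_iff]
        exact (hzc a (left_mem_gen _ _ _)).symm
      have hzb : g * z * g⁻¹ ∈ centralizer ({b} : Set G) := by
        rw [mem_centralizer_singleton_iff]
        have := hzc _ (right_mem_gen a b g)
        have e1 : g * z * g⁻¹ * b = g * (z * (g⁻¹ * b * g)) * g⁻¹ := by group
        have e2 : b * (g * z * g⁻¹) = g * ((g⁻¹ * b * g) * z) * g⁻¹ := by group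
        rw [e1, e2, this]
      refine ⟨Sum.inr (⟨⟨z, hza⟩, hz1⟩, ⟨_, hzb⟩), ?_⟩
      have hex : ∃ t : G, t * z * t⁻¹ = g * z * g⁻¹ := ⟨g, rfl⟩
      have hc : c (Sum.inr (⟨⟨z, hza⟩, hz1⟩, ⟨_, hzb⟩)) = hex.choose := by
        change (if h : ∃ t : G, t * z * t⁻¹ = g * z * g⁻¹ then h.choose else 1) = _
        rw [dif_pos hex]
      rw [hc]
      have hs := hex.choose_spec
      set t := hex.choose with ht
      change g ∈ t • ((centralizer ({z} : Set G) : Subgroup G) : Set G)
      rw [mem_leftCoset_iff]
      rw [SetLike.mem_coe, mem_centralizer_singleton_iff]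
      have e1 : t⁻¹ * g * z = t⁻¹ * (g * z * g⁻¹) * g := by group
      rw [e1, ← hs]; group
  obtain ⟨i, -, hi⟩ := Subgroup.exists_finiteIndex_of_leftCoset_cover hcov
  have hne : H i ≠ ⊤ := by
    rcases i with g | ⟨z, w⟩
    · exact bot_ne_top
    · exact centralizer_ne_top z.2
  exact not_finiteIndex hne hi

/-- one centralizer is infinite and centre-by-finite -/
theorem good_infinite_of_centre' [IsSimpleGroup G] (hG : IsQuasiChernikov G) {a b : G}
    (ha1 : a ≠ 1) (hb1 : b ≠ 1)
    (hz : ∀ g : G, Finite (gen b a g) → ∃ z ∈ gen b a g, z ≠ 1 ∧ ∀ y ∈ gen b a g, y * z = z * y)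
    (hinf : Infinite (centralizer ({b} : Set G)))
    (hcf : CentreByFinite (centralizer ({b} : Set G))) : (good a b).Infinite :=
  good_symm (good_infinite_of_centre hG hb1 ha1 hz hinf hcf)

/-- the finite subgroups generated by two elements are nilpotent -/
lemma exists_central {a b : G} (ha1 : a ≠ 1)
    (hn : ∀ H : Subgroup G, Finite H → Group.IsNilpotent H) (g : G) (hg : Finite (gen a b g)) :
    ∃ z ∈ gen a b g, z ≠ 1 ∧ ∀ y ∈ gen a b g, y * z = z * y := by
  have h1 := hn _ hg
  have : Nontrivial (gen a b g) :=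
    ⟨⟨⟨a, left_mem_gen _ _ _⟩, 1, fun h => ha1 (congrArg Subtype.val h)⟩⟩
  have h2 := Group.IsNilpotent.center_ne_bot (G := gen a b g)
  obtain ⟨z, hz1⟩ := ne_bot_iff_exists_ne_one.1 h2
  refine ⟨((z : gen a b g) : G), (z : gen a b g).2, ?_, ?_⟩
  · intro h
    exact hz1 (Subtype.ext (Subtype.ext h))
  · intro y hy
    have := mem_center_iff.1 z.2 ⟨y, hy⟩
    exact congrArg Subtype.val this

/-- conjugation on the divisible part is trivial if the rank is small -/
lemma centreByFinite_of_rank' (hG : IsQuasiChernikov G) {p : ℕ} [Fact p.Prime]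
    {C : Subgroup G} (hp : IsPGroup p C) (hC : C ≠ ⊤)
    (hr : ∀ A : Subgroup G, A ≤ C → Comm A → Dvb A → {x : G | x ∈ A ∧ x ^ p = 1}.Finite ∧
      {x : G | x ∈ A ∧ x ^ p = 1}.ncard < p ^ (p - 1)) : CentreByFinite C := by
  obtain ⟨N, hNC, hNc, hNd, -, hNn, hNf⟩ := exists_divPart hG hC
  obtain ⟨hfin, hcard⟩ := hr N hNC hNc hNd
  let iC : CommGroup N :=
    { (inferInstance : Group N) with
      mul_comm := fun x y => Subtype.ext (hNc x x.2 y y.2) }
  have hdiv : ∀ x : Additive N, ∃ y, p • y = x := by
    intro x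
    obtain ⟨y, hy, hyx⟩ := hNd (x.toMul : N) (x.toMul : N).2 p (Fact.out : p.Prime).pos
    exact ⟨Additive.ofMul ⟨y, hy⟩, congrArg Additive.ofMul (Subtype.ext hyx :
      (⟨y, hy⟩ : N) ^ p = x.toMul)⟩
  have htor : ∀ x : Additive N, ∃ k : ℕ, p ^ k • x = 0 := by
    intro x
    obtain ⟨k, hk⟩ := (isPGroup_iff_pow_pow_eq_one.1 hp) ⟨_, hNC (x.toMul : N).2⟩
    have hk' := congrArg Subtype.val hk
    exact ⟨k, congrArg Additive.ofMul (Subtype.ext (by simpa using hk') :
      (x.toMul : N) ^ (p ^ k) = 1)⟩
  have himg : (fun x : Additive N => ((x.toMul : N) : G)) '' {x : Additive N | p • x = 0}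
      = {x : G | x ∈ N ∧ x ^ p = 1} := by
    ext y
    constructor
    · rintro ⟨x, hx, rfl⟩
      have hx' : (x.toMul : N) ^ p = 1 := hx
      refine ⟨(x.toMul : N).2, ?_⟩
      have := congrArg Subtype.val hx'
      simpa using this
    · rintro ⟨hy, hyp⟩
      refine ⟨Additive.ofMul ⟨y, hy⟩, ?_, rfl⟩
      exact (congrArg Additive.ofMul (Subtype.ext (by simpa using hyp) :
        (⟨y, hy⟩ : N) ^ p = 1))
  have hinj : Function.Injective (fun x : Additive N => ((x.toMul : N) : G)) := by
    intro x y h
    exact Additive.toMul.injective (Subtype.ext h)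
  have hfin' : {x : Additive N | p • x = 0}.Finite :=
    Set.Finite.of_finite_image (by rw [himg]; exact hfin) hinj.injOn
  have hcard' : {x : Additive N | p • x = 0}.ncard < p ^ (p - 1) := by
    rw [← Set.ncard_image_of_injective _ hinj, himg]; exact hcard
  -- the divisible part is central
  have hcent : ∀ u ∈ C, ∀ x ∈ N, u * x * u⁻¹ = x := by
    intro u hu x hx
    let f : N →* N :=
      { toFun := fun y => ⟨u * y * u⁻¹, hNn u hu y y.2⟩
        map_one' := Subtype.ext (by simp)
        map_mul' := fun y z => Subtype.ext (by simp) }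
    let σ : Module.End ℤ (Additive N) := (MonoidHom.toAdditive f).toIntLinearMap
    have hσ : ∀ (k : ℕ) (y : Additive N), (((σ ^ k) y).toMul : G) = u ^ k * (y.toMul : N) * (u ^ k)⁻¹ := by
      intro k
      induction k with
      | zero => intro y; simp
      | succ k ih =>
        intro y
        rw [pow_succ, Module.End.mul_apply, ih]
        change u ^ k * (u * ((y.toMul : N) : G) * u⁻¹) * (u ^ k)⁻¹ = _
        rw [pow_succ]; group
    obtain ⟨k, hk0⟩ := (isPGroup_iff_pow_pow_eq_one.1 hp) ⟨u, hu⟩
    have hk : u ^ (p ^ k) = 1 := by simpa using congrArg Subtype.val hk0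
    have h1 : σ ^ (p ^ k) = 1 := by
      apply LinearMap.ext
      intro y
      apply Additive.toMul.injective
      apply Subtype.ext
      have := hσ (p ^ k) y
      rw [hk] at this
      simpa using this
    have h2 := trivial_of_pow_pow p hdiv htor hfin' hcard' k σ h1
    have h3 := hσ 1 (Additive.ofMul ⟨x, hx⟩)
    rw [pow_one, h2] at h3
    simpa using h3.symm
  -- conclusion
  have hle : N.subgroupOf C ≤ center C := by
    intro x hx
    rw [mem_center_iff]
    intro y
    apply Subtype.ext
    have := hcent y y.2 x hx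
    change (y : G) * x = x * y
    calc (y : G) * x = (y * x * (y : G)⁻¹) * y := by group
      _ = x * y := by rw [this]
  exact Subgroup.finiteIndex_of_le hle

/-- **Nilpotent case.** -/
theorem good_infinite_of_nilpotent [IsSimpleGroup G] (hG : IsQuasiChernikov G)
    (hn : ∀ H : Subgroup G, Finite H → Group.IsNilpotent H) {a b : G} (ha1 : a ≠ 1) (hb1 : b ≠ 1)
    (h : (Finite (centralizer ({a} : Set G)) ∧ Finite (centralizer ({b} : Set G))) ∨
      (Infinite (centralizer ({a} : Set G)) ∧ CentreByFinite (centralizer ({a} : Set G))) ∨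
      (Infinite (centralizer ({b} : Set G)) ∧ CentreByFinite (centralizer ({b} : Set G)))) :
    (good a b).Infinite := by
  rcases h with ⟨h1, h2⟩ | ⟨h1, h2⟩ | ⟨h1, h2⟩
  · exact good_infinite_of_finite hG (exists_central ha1 hn) h1 h2
  · exact good_infinite_of_centre hG ha1 hb1 (exists_central ha1 hn) h1 h2
  · exact good_infinite_of_centre' hG ha1 hb1 (exists_central hb1 hn) h1 h2

end Pool.Agent.Helper36.QC
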